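import Mathlib

/-!
Dyadic intervals and Haar functions on the line.
-/

set_option autoImplicit false
open MeasureTheory Set Filter Topology
open scoped ENNReal

namespace Q83.Haar

/-- The dyadic interval `[k 2^j, (k+1) 2^j)`. -/
def D (j k : ℤ) : Set ℝ := Ico (k * (2 : ℝ) ^ j) ((k + 1) * 2 ^ j)

lemma measurableSet_D (j k : ℤ) : MeasurableSet (D j k) := measurableSet_Ico

lemma pow_pos' (j : ℤ) : (0 : ℝ) < 2 ^ j := by positivity

lemma pow_eq (j : ℤ) : (2 : ℝ) ^ j = 2 * 2 ^ (j - 1) := by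
  rw [zpow_sub_one₀ (by norm_num)]
  field_simp

lemma mem_D {j k : ℤ} {x : ℝ} : x ∈ D j k ↔ (k : ℝ) * 2 ^ j ≤ x ∧ x < (k + 1) * 2 ^ j := Iff.rfl

lemma mem_D_floor {j k : ℤ} {x : ℝ} : x ∈ D j k ↔ ⌊x / 2 ^ j⌋ = k := by
  rw [mem_D, Int.floor_eq_iff, le_div_iff₀ (pow_pos' j), div_lt_iff₀ (pow_pos' j)]

lemma D_unique {j k l : ℤ} {x : ℝ} (h1 : x ∈ D j k) (h2 : x ∈ D j l) : k = l := by
  rw [mem_D_floor] at h1 h2
  rw [← h1, ← h2]

lemma D_disj {j k l : ℤ} (h : k ≠ l) : Disjoint (D j k) (D j l) := by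
  rw [Set.disjoint_left]
  intro x h1 h2
  exact h (D_unique h1 h2)

lemma vol_D (j k : ℤ) : volume (D j k) = ENNReal.ofReal (2 ^ j) := by
  unfold D
  rw [Real.volume_Ico]
  congr 1
  ring

lemma vol_D_ne_top (j k : ℤ) : volume (D j k) ≠ ⊤ := by
  rw [vol_D]
  exact ENNReal.ofReal_ne_top

lemma volr_D (j k : ℤ) : volume.real (D j k) = 2 ^ j := by
  unfold Measure.real
  rw [vol_D, ENNReal.toReal_ofReal (pow_pos' j).le]

lemma D_split (j k : ℤ) : D j k = D (j - 1) (2 * k) ∪ D (j - 1) (2 * k + 1) := by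
  have h := pow_eq j
  have h0 := pow_pos' (j - 1)
  ext x
  rw [mem_union, mem_D, mem_D, mem_D, h]
  push_cast
  constructor
  · rintro ⟨h1, h2⟩
    rcases lt_or_ge x ((2 * (k : ℝ) + 1) * 2 ^ (j - 1)) with h3 | h3
    · exact Or.inl ⟨by linarith, h3⟩
    · exact Or.inr ⟨h3, by linarith⟩
  · rintro (⟨h1, h2⟩ | ⟨h1, h2⟩)
    · exact ⟨by linarith, by linarith⟩
    · exact ⟨by linarith, by linarith⟩

/-- The parent. -/
lemma D_parent (j k : ℤ) : D j k ⊆ D (j + 1) (k / 2) := by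
  have h := D_split (j + 1) (k / 2)
  rw [show j + 1 - 1 = j by ring] at h
  rw [h]
  rcases Int.emod_two_eq_zero_or_one k with hk | hk
  · have : 2 * (k / 2) = k := by omega
    rw [this]
    exact subset_union_left
  · have : 2 * (k / 2) + 1 = k := by omega
    rw [this]
    exact subset_union_right

/-- The ancestor index. -/
def an (n : ℕ) (k : ℤ) : ℤ := k / 2 ^ n

lemma an_zero (k : ℤ) : an 0 k = k := by simp [an]

lemma an_succ (n : ℕ) (k : ℤ) : an (n + 1) k = an n (k / 2) := by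
  unfold an
  rw [pow_succ, mul_comm, Int.ediv_ediv_of_nonneg (by norm_num)]

lemma an_succ' (n : ℕ) (k : ℤ) : an (n + 1) k = an n k / 2 := by
  unfold an
  rw [pow_succ, Int.ediv_ediv_of_nonneg (by positivity)]

lemma D_an (n : ℕ) (j k : ℤ) : D j k ⊆ D (j + n) (an n k) := by
  induction n with
  | zero => simp [an_zero]
  | succ n ih =>
    refine ih.trans ?_
    have := D_parent (j + n) (an n k)
    rw [← an_succ'] at this
    push_cast
    rwa [← add_assoc]

/-- Nestedness. -/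
lemma nested (n : ℕ) (j k l : ℤ) (h : l ≠ an n k) : Disjoint (D j k) (D (j + n) l) := by
  rw [Set.disjoint_left]
  intro x h1 h2
  exact h (D_unique h2 (D_an n j k h1))

lemma D_inter (n : ℕ) (j k l : ℤ) : D j k ∩ D (j + n) l = if l = an n k then D j k else ∅ := by
  split_ifs with h
  · rw [h]
    exact inter_eq_left.2 (D_an n j k)
  · exact (nested n j k l h).inter_eq

/-- The Haar function of the dyadic interval `D j k`. -/
noncomputable def hf (j k : ℤ) (x : ℝ) : ℝ :=
  (√((2 : ℝ) ^ j))⁻¹ * ((D (j - 1) (2 * k + 1)).indicator 1 x - (D (j - 1) (2 * k)).indicator 1 x)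

lemma memLp_indD (j k : ℤ) : MemLp ((D j k).indicator (1 : ℝ → ℝ)) 2 volume :=
  memLp_indicator_const 2 (measurableSet_D j k) (1 : ℝ) (Or.inr (vol_D_ne_top j k))

lemma memLp_hf (j k : ℤ) : MemLp (hf j k) 2 volume :=
  ((memLp_indD _ _).sub (memLp_indD _ _)).const_mul _

noncomputable abbrev H := Lp ℝ 2 (volume : Measure ℝ)

/-- The Haar function as an element of the Hilbert space. -/
noncomputable def hL (j k : ℤ) : H := (memLp_hf j k).toLp _

/-- The integral over a dyadic interval. -/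
noncomputable def mI (j k : ℤ) (φ : ℝ → ℝ) : ℝ := ∫ x in D j k, φ x

lemma inner_H (u v : H) : inner ℝ u v = ∫ x, u x * v x := by
  rw [L2.inner_def]
  apply integral_congr_ae
  filter_upwards with x
  simp [mul_comm]

lemma memLp_on (φ : ℝ → ℝ) (hφ : MemLp φ 2 volume) {s : Set ℝ} (hs : volume s ≠ ⊤) :
    IntegrableOn φ s := by
  have : IsFiniteMeasure (volume.restrict s) := ⟨by rw [Measure.restrict_apply_univ]; exact hs.lt_top⟩
  have := (hφ.restrict s).mono_exponent (q := 2) (p := 1) (by norm_num)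
  rwa [memLp_one_iff_integrable] at this

lemma integrableOn_D (φ : ℝ → ℝ) (hφ : MemLp φ 2 volume) (j k : ℤ) : IntegrableOn φ (D j k) :=
  memLp_on φ hφ (vol_D_ne_top j k)

lemma mI_split (φ : ℝ → ℝ) (hφ : MemLp φ 2 volume) (j k : ℤ) :
    mI j k φ = mI (j - 1) (2 * k) φ + mI (j - 1) (2 * k + 1) φ := by
  unfold mI
  rw [D_split j k, setIntegral_union (D_disj (by omega)) (measurableSet_D _ _)
    (integrableOn_D φ hφ _ _) (integrableOn_D φ hφ _ _)]

lemma inner_hL (j k : ℤ) (φ : H) :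
    inner ℝ (hL j k) φ = (√((2 : ℝ) ^ j))⁻¹ * (mI (j - 1) (2 * k + 1) φ - mI (j - 1) (2 * k) φ) := by
  rw [inner_H]
  have h1 : ∫ x, (hL j k) x * φ x = ∫ x, (√((2 : ℝ) ^ j))⁻¹ *
      ((D (j - 1) (2 * k + 1)).indicator φ x - (D (j - 1) (2 * k)).indicator φ x) := by
    apply integral_congr_ae
    filter_upwards [(memLp_hf j k).coeFn_toLp] with x hx
    unfold hL
    rw [hx]
    unfold hf
    classical
    simp only [indicator_apply, Pi.one_apply]
    split_ifs <;> ring
  have hφ := Lp.memLp φ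
  rw [h1, integral_const_mul, integral_sub, integral_indicator (measurableSet_D _ _),
    integral_indicator (measurableSet_D _ _)]
  · rfl
  · exact (integrableOn_D φ hφ _ _).integrable_indicator (measurableSet_D _ _)
  · exact (integrableOn_D φ hφ _ _).integrable_indicator (measurableSet_D _ _)

/-- Lebesgue differentiation along the dyadic intervals. -/
lemma ae_lim (φ : ℝ → ℝ) (hφ : LocallyIntegrable φ volume) : ∀ᵐ x : ℝ,
    Tendsto (fun n : ℕ => (2 : ℝ) ^ n * mI (-(n : ℤ)) ⌊x / 2 ^ (-(n : ℤ))⌋ φ) atTop (𝓝 (φ x)) := by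
  filter_upwards [IsUnifLocDoublingMeasure.ae_tendsto_average (μ := volume) hφ 1] with x hx
  have hδ : Tendsto (fun n : ℕ => (2 : ℝ) ^ (-(n : ℤ)) / 2) atTop (𝓝[>] 0) := by
    rw [tendsto_nhdsWithin_iff]
    constructor
    · have := (tendsto_pow_atTop_nhds_zero_of_lt_one (r := (1 / 2 : ℝ)) (by norm_num)
        (by norm_num)).div_const 2
      rw [zero_div] at this
      refine this.congr fun n => ?_
      rw [zpow_neg, zpow_natCast, one_div, inv_pow]
    · exact Eventually.of_forall fun n => by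
        simp only [mem_Ioi]
        positivity
  have h := hx (fun n : ℕ => ((⌊x / 2 ^ (-(n : ℤ))⌋ : ℝ) + 1 / 2) * 2 ^ (-(n : ℤ)))
    (fun n : ℕ => (2 : ℝ) ^ (-(n : ℤ)) / 2) hδ (Eventually.of_forall fun n => by
      have h1 : x ∈ D (-(n : ℤ)) ⌊x / 2 ^ (-(n : ℤ))⌋ := mem_D_floor.2 rfl
      rw [mem_D] at h1
      rw [Metric.mem_closedBall, Real.dist_eq, abs_le]
      constructor <;> linarith [h1.1, h1.2])
  refine h.congr fun n => ?_
  have h2 : Metric.closedBall (((⌊x / 2 ^ (-(n : ℤ))⌋ : ℝ) + 1 / 2) * 2 ^ (-(n : ℤ)))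
      ((2 : ℝ) ^ (-(n : ℤ)) / 2) = Icc ((⌊x / 2 ^ (-(n : ℤ))⌋ : ℝ) * 2 ^ (-(n : ℤ)))
        ((⌊x / 2 ^ (-(n : ℤ))⌋ + 1 : ℝ) * 2 ^ (-(n : ℤ))) := by
    rw [Real.closedBall_eq_Icc]
    congr 1 <;> ring
  rw [h2, setAverage_eq, measureReal_def, Real.volume_Icc, integral_Icc_eq_integral_Ico]
  unfold mI D
  rw [smul_eq_mul]
  congr 1
  have h3 := pow_pos' (-(n : ℤ))
  have h4 : ((⌊x / 2 ^ (-(n : ℤ))⌋ + 1 : ℝ) * 2 ^ (-(n : ℤ))) -
      ((⌊x / 2 ^ (-(n : ℤ))⌋ : ℝ) * 2 ^ (-(n : ℤ))) = 2 ^ (-(n : ℤ)) := by ring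
  rw [h4, ENNReal.toReal_ofReal h3.le, zpow_neg, inv_inv, zpow_natCast]

lemma locInt (φ : ℝ → ℝ) (hφ : MemLp φ 2 volume) : LocallyIntegrable φ volume :=
  hφ.locallyIntegrable (by norm_num)

/-- Vanishing of all the dyadic integrals. -/
lemma eq_zero_of_mI (φ : ℝ → ℝ) (hφ : LocallyIntegrable φ volume) (h : ∀ j k, mI j k φ = 0) :
    φ =ᵐ[volume] 0 := by
  filter_upwards [ae_lim φ hφ] with x hx
  simp_rw [h, mul_zero] at hx
  exact tendsto_nhds_unique hx tendsto_const_nhds

/-- The integrals of the Haar functions over larger intervals. -/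
lemma mI_hf (n : ℕ) (j k l : ℤ) : mI (j + n) l (hf j k) = 0 := by
  unfold mI hf
  have h1 : IntegrableOn (fun x => (D (j - 1) (2 * k + 1)).indicator (1 : ℝ → ℝ) x) (D (j + n) l) :=
    integrableOn_D _ (memLp_indD _ _) _ _
  have h2 : IntegrableOn (fun x => (D (j - 1) (2 * k)).indicator (1 : ℝ → ℝ) x) (D (j + n) l) :=
    integrableOn_D _ (memLp_indD _ _) _ _
  rw [integral_const_mul, integral_sub h1 h2]
  have h3 : ∀ m : ℤ, ∫ x in D (j + n) l, (D (j - 1) m).indicator (1 : ℝ → ℝ) x =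
      if l = an (n + 1) m then 2 ^ (j - 1) else 0 := by
    intro m
    rw [setIntegral_indicator (measurableSet_D _ _), Set.inter_comm]
    have h4 := D_inter (n + 1) (j - 1) m l
    rw [show j - 1 + ((n + 1 : ℕ) : ℤ) = j + n by push_cast; ring] at h4
    rw [h4]
    split_ifs
    · simp [volr_D]
    · simp
  rw [h3, h3, an_succ, an_succ]
  have h5 : (2 * k + 1) / 2 = 2 * k / 2 := by omega
  rw [h5]
  simp

/-- Completeness of the Haar system. -/
lemma complete (φ : H) (h : ∀ j k, inner ℝ (hL j k) φ = 0) : φ = 0 := by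
  have hφ : MemLp φ 2 volume := Lp.memLp φ
  -- children have equal integrals
  have h1 : ∀ j k : ℤ, mI (j - 1) (2 * k + 1) φ = mI (j - 1) (2 * k) φ := by
    intro j k
    have := h j k
    rw [inner_hL, mul_eq_zero] at this
    rcases this with h2 | h2
    · exfalso
      rw [inv_eq_zero] at h2
      exact (Real.sqrt_pos.2 (pow_pos' j)).ne' h2
    · linarith
  have h2 : ∀ j k : ℤ, mI j k φ = 1 / 2 * mI (j + 1) (k / 2) φ := by
    intro j k
    have h3 := mI_split φ hφ (j + 1) (k / 2)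
    have h4 := h1 (j + 1) (k / 2)
    rw [show j + 1 - 1 = j by ring] at h3 h4
    rcases Int.emod_two_eq_zero_or_one k with hk | hk
    · have : 2 * (k / 2) = k := by omega
      rw [this] at h3 h4
      linarith
    · have : 2 * (k / 2) + 1 = k := by omega
      rw [this] at h3 h4
      linarith
  have h3 : ∀ (n : ℕ) (j k : ℤ), mI j k φ = (1 / 2) ^ n * mI (j + n) (an n k) φ := by
    intro n
    induction n with
    | zero =>
      intro j k
      simp [an_zero]
    | succ n ih =>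
      intro j k
      rw [ih, h2, ← an_succ', pow_succ]
      push_cast
      rw [add_assoc]
      ring
  -- the bound
  have h4 : ∀ j k : ℤ, |mI j k φ| ≤ ‖φ‖ * √((2 : ℝ) ^ j) := by
    intro j k
    have h5 : mI j k φ = inner ℝ ((memLp_indD j k).toLp _) φ := by
      rw [inner_H]
      unfold mI
      rw [← integral_indicator (measurableSet_D j k)]
      apply integral_congr_ae
      filter_upwards [(memLp_indD j k).coeFn_toLp] with x hx
      rw [hx]
      classical
      simp only [indicator_apply, Pi.one_apply]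
      split_ifs <;> ring
    rw [h5]
    refine (abs_real_inner_le_norm _ _).trans ?_
    rw [mul_comm]
    apply mul_le_mul_of_nonneg_left _ (norm_nonneg _)
    rw [Lp.norm_toLp, show (1 : ℝ → ℝ) = fun _ => 1 from rfl,
      eLpNorm_indicator_const (measurableSet_D j k) (by norm_num) (by norm_num), vol_D]
    simp only [enorm_one, one_mul, ENNReal.toReal_ofNat]
    rw [← ENNReal.toReal_rpow, ENNReal.toReal_ofReal (pow_pos' j).le, Real.sqrt_eq_rpow]
  have h5 : ∀ j k : ℤ, mI j k φ = 0 := by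
    intro j k
    have h6 : ∀ n : ℕ, |mI j k φ| ≤ ‖φ‖ * √((2 : ℝ) ^ j) * (√(1 / 2)) ^ n := by
      intro n
      rw [h3 n, abs_mul, abs_of_pos (by positivity)]
      refine (mul_le_mul_of_nonneg_left (h4 _ _) (by positivity)).trans (le_of_eq ?_)
      rw [zpow_add₀ (by norm_num), zpow_natCast, Real.sqrt_mul (by positivity)]
      have h7 : (1 / 2 : ℝ) ^ n * √((2 : ℝ) ^ n) = √(1 / 2) ^ n := by
        have h8 : √((2 : ℝ) ^ n) = √2 ^ n := by
          rw [Real.sqrt_eq_iff_mul_self_eq (by positivity) (by positivity), ← mul_pow,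
            Real.mul_self_sqrt (by norm_num)]
        rw [h8, ← mul_pow]
        congr 1
        rw [Real.sqrt_div (by norm_num), Real.sqrt_one]
        have h9 : √2 ≠ 0 := by positivity
        field_simp
        exact Real.sq_sqrt (by norm_num)
      calc (1 / 2 : ℝ) ^ n * (‖φ‖ * (√((2 : ℝ) ^ j) * √((2 : ℝ) ^ n))) =
          ‖φ‖ * √((2 : ℝ) ^ j) * ((1 / 2 : ℝ) ^ n * √((2 : ℝ) ^ n)) := by ring
        _ = _ := by rw [h7]
    have h7 : Tendsto (fun n : ℕ => ‖φ‖ * √((2 : ℝ) ^ j) * (√(1 / 2)) ^ n) atTop (𝓝 0) := by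
      have := tendsto_pow_atTop_nhds_zero_of_lt_one (r := √(1 / 2)) (by positivity) (by
        rw [Real.sqrt_lt' (by norm_num)]
        norm_num)
      simpa using this.const_mul (‖φ‖ * √((2 : ℝ) ^ j))
    have h8 := ge_of_tendsto' h7 h6
    exact abs_eq_zero.1 (le_antisymm h8 (abs_nonneg _))
  rw [Lp.eq_zero_iff_ae_eq_zero]
  exact eq_zero_of_mI φ (locInt φ hφ) h5

/-- Orthonormality of the Haar system. -/
lemma mI_hf_same (j k l : ℤ) : mI (j - 1) l (hf j k) =
    (√((2 : ℝ) ^ j))⁻¹ * 2 ^ (j - 1) * ((if l = 2 * k + 1 then 1 else 0) - if l = 2 * k then 1 else 0) := by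
  unfold mI hf
  have h1 : IntegrableOn (fun x => (D (j - 1) (2 * k + 1)).indicator (1 : ℝ → ℝ) x) (D (j - 1) l) :=
    integrableOn_D _ (memLp_indD _ _) _ _
  have h2 : IntegrableOn (fun x => (D (j - 1) (2 * k)).indicator (1 : ℝ → ℝ) x) (D (j - 1) l) :=
    integrableOn_D _ (memLp_indD _ _) _ _
  rw [integral_const_mul, integral_sub h1 h2]
  have h3 : ∀ m : ℤ, ∫ x in D (j - 1) l, (D (j - 1) m).indicator (1 : ℝ → ℝ) x =
      if l = m then 2 ^ (j - 1) else 0 := by
    intro m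
    rw [setIntegral_indicator (measurableSet_D _ _), Set.inter_comm]
    have h4 := D_inter 0 (j - 1) m l
    rw [Nat.cast_zero, add_zero, an_zero] at h4
    rw [h4]
    split_ifs
    · simp [volr_D]
    · simp
  rw [h3, h3]
  split_ifs <;> ring

lemma mI_congr (j k : ℤ) {φ ψ : ℝ → ℝ} (h : φ =ᵐ[volume] ψ) : mI j k φ = mI j k ψ :=
  setIntegral_congr_ae (measurableSet_D j k) (by filter_upwards [h] with x hx _ using hx)

lemma coe_hL (j k : ℤ) : (hL j k : ℝ → ℝ) =ᵐ[volume] hf j k := (memLp_hf j k).coeFn_toLp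

lemma orthonormal_hL : Orthonormal ℝ (fun q : ℤ × ℤ => hL q.1 q.2) := by
  rw [orthonormal_iff_ite]
  have key : ∀ (j k j' k' : ℤ), j ≤ j' →
      inner ℝ (hL j' k') (hL j k) = if (j', k') = (j, k) then (1 : ℝ) else 0 := by
    intro j k j' k' hjj
    rw [inner_hL, mI_congr _ _ (coe_hL j k), mI_congr _ _ (coe_hL j k)]
    rcases hjj.lt_or_eq with h | h
    · obtain ⟨n, hn⟩ : ∃ n : ℕ, j' - 1 = j + n := ⟨(j' - 1 - j).toNat, by omega⟩
      rw [hn, mI_hf, mI_hf, if_neg (by
        intro h2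
        rw [Prod.mk.injEq] at h2
        omega)]
      ring
    · subst h
      rw [mI_hf_same, mI_hf_same]
      have h5 := pow_eq j
      have h6 : √((2 : ℝ) ^ j) ≠ 0 := (Real.sqrt_pos.2 (pow_pos' j)).ne'
      have h7 : (√((2 : ℝ) ^ j))⁻¹ * (√((2 : ℝ) ^ j))⁻¹ * (2 * 2 ^ (j - 1)) = 1 := by
        rw [← h5, ← mul_inv, Real.mul_self_sqrt (pow_pos' j).le, inv_mul_cancel₀ (pow_pos' j).ne']
      by_cases hk : k' = k
      · subst hk
        rw [if_pos rfl, if_neg (by omega), if_neg (by omega), if_pos rfl, if_pos rfl]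
        linarith [h7]
      · rw [if_neg (by omega), if_neg (by omega), if_neg (by omega), if_neg (by omega), if_neg (by
          intro h2
          rw [Prod.mk.injEq] at h2
          exact hk h2.2)]
        ring
  rintro ⟨j, k⟩ ⟨j', k'⟩
  simp only
  rcases le_total j j' with h | h
  · rw [real_inner_comm, key j k j' k' h]
    simp only [eq_comm]
  · exact key j' k' j k h

end Q83.Haar
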