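import Pool.Agent.Q83.Haar.Proj

/-!
Existence and uniqueness of the Haar shift.
-/

set_option autoImplicit false
open MeasureTheory Set Filter Topology
open scoped ENNReal

namespace Q83.Haar

/-- The images of the Haar functions. -/
noncomputable def hL' (q : ℤ × ℤ) : H := ep q.2 • hL q.1 (sb q.2)

lemma orthonormal_hL' : Orthonormal ℝ hL' := by
  rw [orthonormal_iff_ite]
  rintro ⟨j, k⟩ ⟨j', k'⟩
  unfold hL'
  rw [inner_smul_left, inner_smul_right, inner_hL_hL]
  simp only [conj_trivial, Prod.mk.injEq]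
  by_cases h : j = j' ∧ k = k'
  · obtain ⟨rfl, rfl⟩ := h
    rw [if_pos ⟨rfl, rfl⟩, if_pos ⟨rfl, rfl⟩, mul_one, ep_sq]
  · rw [if_neg h, if_neg]
    · ring
    · rintro ⟨h1, h2⟩
      apply h
      refine ⟨h1, ?_⟩
      rw [← sb_sb k, h2, sb_sb]

lemma span_hL : ⊤ ≤ (Submodule.span ℝ (range fun q : ℤ × ℤ => hL q.1 q.2)).topologicalClosure := by
  rw [Submodule.dense_iff_topologicalClosure_eq_top.1 dense_span]

lemma span_hL' : ⊤ ≤ (Submodule.span ℝ (range hL')).topologicalClosure := by
  refine span_hL.trans (Submodule.topologicalClosure_mono ?_)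
  rw [Submodule.span_le]
  rintro _ ⟨⟨j, k⟩, rfl⟩
  have h : hL j k = (-ep k) • hL' (j, sb k) := by
    unfold hL'
    simp only
    rw [sb_sb, ep_sb, smul_smul, neg_mul_neg, ep_sq, one_smul]
  simp only
  rw [h]
  exact Submodule.smul_mem _ _ (Submodule.subset_span ⟨_, rfl⟩)

/-- The Haar basis. -/
noncomputable def bas : HilbertBasis (ℤ × ℤ) ℝ H := HilbertBasis.mk orthonormal_hL span_hL

noncomputable def bas' : HilbertBasis (ℤ × ℤ) ℝ H := HilbertBasis.mk orthonormal_hL' span_hL'

theorem exists_shift : ∃ T : H →L[ℝ] H, IsShift T := by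
  set e : H ≃ₗᵢ[ℝ] H := bas.repr.trans bas'.repr.symm with he
  have h1 : ∀ j k : ℤ, e (hL j k) = hL' (j, k) := by
    intro j k
    have h2 : hL j k = bas (j, k) := by
      unfold bas
      rw [HilbertBasis.coe_mk]
    have h3 : hL' (j, k) = bas' (j, k) := by
      unfold bas'
      rw [HilbertBasis.coe_mk]
    rw [h2, h3, he, LinearIsometryEquiv.trans_apply, HilbertBasis.repr_self,
      HilbertBasis.repr_symm_single]
  refine ⟨(e.toContinuousLinearEquiv : H →L[ℝ] H), fun j k => ⟨?_, ?_⟩⟩
  · change e (hL j (2 * k + 1)) = _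
    rw [h1]
    unfold hL' ep sb
    simp only
    rw [if_neg (by omega), if_neg (by omega), one_smul]
    congr 1
    ring
  · change e (hL j (2 * k)) = _
    rw [h1]
    unfold hL' ep sb
    simp only
    rw [if_pos (by omega), if_pos (by omega), neg_smul, one_smul]

theorem unique_shift {T T' : H →L[ℝ] H} (h : IsShift T) (h' : IsShift T') : T = T' := by
  apply ext_basis
  intro j k
  rw [shift_apply h, shift_apply h']

end Q83.Haar
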