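import Pool.Agent.Q83.Haar.Proj

/-!
The bound for the Haar shift of an indicator function.
-/

set_option autoImplicit false
open MeasureTheory Set Filter Topology
open scoped ENNReal

namespace Q83.Haar

lemma an_add (m n : ℕ) (k : ℤ) : an n (an m k) = an (m + n) k := by
  unfold an
  rw [pow_add, Int.ediv_ediv_of_nonneg (by positivity)]

/-- Cauchy-Schwarz. -/
lemma cs (A : Set ℝ) (hA : volume A ≠ ⊤) (φ : ℝ → ℝ) (hφ : MemLp φ 2 volume) :
    (∫ x in A, φ x) ^ 2 ≤ volume.real A * ∫ x in A, φ x ^ 2 := by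
  have hi : IntegrableOn φ A := memLp_on φ hφ hA
  have hi2 : IntegrableOn (fun x => φ x ^ 2) A := hφ.integrable_sq.integrableOn
  have hq : ∀ c : ℝ, 0 ≤ (∫ x in A, φ x ^ 2) - 2 * c * (∫ x in A, φ x) + c ^ 2 * volume.real A := by
    intro c
    have h1 : ∫ x in A, (φ x - c) ^ 2 = (∫ x in A, φ x ^ 2) - 2 * c * (∫ x in A, φ x) +
        c ^ 2 * volume.real A := by
      have h2 : ∀ x, (φ x - c) ^ 2 = φ x ^ 2 - 2 * c * φ x + c ^ 2 := fun x => by ring
      simp_rw [h2]
      have h3 : Integrable (fun x => φ x ^ 2 - 2 * c * φ x) (volume.restrict A) :=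
        hi2.sub (hi.const_mul _)
      rw [integral_add h3 (integrableOn_const hA), integral_sub hi2
        (hi.const_mul _), integral_const_mul]
      simp
      ring
    rw [← h1]
    exact integral_nonneg fun x => by positivity
  by_cases h0 : volume.real A = 0
  · have h1 : volume A = 0 := by
      rw [measureReal_eq_zero_iff hA] at h0
      exact h0
    rw [Measure.restrict_eq_zero.2 h1]
    simp
  · have hpos : 0 < volume.real A := lt_of_le_of_ne measureReal_nonneg (Ne.symm h0)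
    have h2 := hq ((∫ x in A, φ x) / volume.real A)
    have h3 : (∫ x in A, φ x ^ 2) - 2 * ((∫ x in A, φ x) / volume.real A) * (∫ x in A, φ x) +
        ((∫ x in A, φ x) / volume.real A) ^ 2 * volume.real A =
        (∫ x in A, φ x ^ 2) - (∫ x in A, φ x) ^ 2 / volume.real A := by
      field_simp
      ring
    rw [h3] at h2
    have h4 : (∫ x in A, φ x) ^ 2 / volume.real A ≤ ∫ x in A, φ x ^ 2 := by linarith
    rw [div_le_iff₀ hpos] at h4
    linarith

lemma cs_D (j k : ℤ) (φ : H) : (mI j k φ) ^ 2 ≤ 2 ^ j * ∫ x in D j k, φ x ^ 2 := by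
  have := cs (D j k) (vol_D_ne_top j k) φ (Lp.memLp φ)
  rwa [volr_D] at this

lemma mI_add (j k : ℤ) (u v : H) : mI j k (u + v : H) = mI j k u + mI j k v := by
  rw [← inner_oneL, ← inner_oneL, ← inner_oneL, inner_add_right]

lemma half_even (k : ℤ) : 2 * k / 2 = k := by omega
lemma half_odd (k : ℤ) : (2 * k + 1) / 2 = k := by omega

lemma single_disj (j k : ℤ) : ∀ q ∈ ({(j, k)} : Set (ℤ × ℤ)), ∀ q' ∈ ({(j, k)} : Set (ℤ × ℤ)),
    q ≠ q' → Disjoint (D q.1 q.2) (D q'.1 q'.2) := by
  intro q hq q' hq' h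
  rw [mem_singleton_iff] at hq hq'
  exact (h (hq.trans hq'.symm)).elim

/-- The product formula on one interval. -/
lemma prod_formula {T : H →L[ℝ] H} (hT : IsShift T) (f : H) (j k : ℤ) :
    ∫ x in D j k, f x * (T f) x =
      mI (j - 1) (2 * k) f * mI (j - 1) (2 * k) (T f) / 2 ^ (j - 1) +
      mI (j - 1) (2 * k + 1) f * mI (j - 1) (2 * k + 1) (T f) / 2 ^ (j - 1) := by
  obtain ⟨n, hn, r, hr, hf⟩ := exists_decomp {(j, k)} f
  have hTn := shift_mem hT _ hn
  have hTr := shift_mem_orth hT _ hr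
  have hTf : T f = T n + T r := by rw [hf, map_add]
  have hprod : ∀ u v : H, Integrable (fun x => u x * v x) := fun u v =>
    (Lp.memLp u).integrable_mul (Lp.memLp v)
  -- one child
  have child : ∀ l : ℤ, l / 2 = k → ∫ x in D (j - 1) l, f x * (T f) x =
      (∫ x in D (j - 1) l, n x * (T n) x) + mI (j - 1) l f * mI (j - 1) l (T f) / 2 ^ (j - 1) := by
    intro l hl
    have hmem : (j, l / 2) ∈ ({(j, k)} : Set (ℤ × ℤ)) := by rw [hl]; rfl
    have h1 := orth_const _ hr hmem
    have h2 := orth_const _ hTr hmem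
    have h3 := mI_NN _ (single_disj j k) hn hmem
    have h4 := mI_NN _ (single_disj j k) hTn hmem
    have h5 : mI (j - 1) l f = mI (j - 1) l r := by rw [hf, mI_add, h3, zero_add]
    have h6 : mI (j - 1) l (T f) = mI (j - 1) l (T r) := by rw [hTf, mI_add, h4, zero_add]
    rw [h5, h6]
    set c := mI (j - 1) l r / 2 ^ (j - 1) with hc
    set c' := mI (j - 1) l (T r) / 2 ^ (j - 1) with hc'
    have h7 : ∫ x in D (j - 1) l, f x * (T f) x =
        ∫ x in D (j - 1) l, (n x * (T n) x + (c' * n x + c * (T n) x + c * c')) := by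
      apply setIntegral_congr_ae (measurableSet_D _ _)
      have hfx : (f : ℝ → ℝ) =ᵐ[volume] n + r := by
        rw [hf]
        exact Lp.coeFn_add n r
      have hTfx : (T f : ℝ → ℝ) =ᵐ[volume] T n + T r := by
        rw [hTf]
        exact Lp.coeFn_add (T n) (T r)
      filter_upwards [h1, h2, hfx, hTfx] with x e1 e2 e3 e4 hx
      rw [e3, e4, Pi.add_apply, Pi.add_apply, e1 hx, e2 hx]
      ring
    have hni := integrableOn_D n (Lp.memLp n) (j - 1) l
    have hTni := integrableOn_D (T n) (Lp.memLp (T n)) (j - 1) l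
    rw [h7, integral_add (hprod _ _).integrableOn, integral_add, integral_add,
      integral_const_mul, integral_const_mul]
    · unfold mI at h3 h4
      rw [h3, h4]
      simp only [mul_zero, add_zero, zero_add]
      rw [integral_const, measureReal_restrict_apply_univ, volr_D, hc, hc']
      have := pow_pos' (j - 1)
      rw [smul_eq_mul]
      field_simp
    · exact hni.const_mul _
    · exact hTni.const_mul _
    · exact (hni.const_mul _).add (hTni.const_mul _)
    · exact integrableOn_const (vol_D_ne_top _ _)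
    · exact ((hni.const_mul _).add (hTni.const_mul _)).add (integrableOn_const (vol_D_ne_top _ _))
  have split : ∀ u v : H, ∫ x in D j k, u x * v x =
      (∫ x in D (j - 1) (2 * k), u x * v x) + ∫ x in D (j - 1) (2 * k + 1), u x * v x := by
    intro u v
    rw [D_split j k, setIntegral_union (D_disj (by omega)) (measurableSet_D _ _)
      (hprod u v).integrableOn (hprod u v).integrableOn]
  rw [split, child _ (half_even k), child _ (half_odd k)]
  have h8 : (∫ x in D (j - 1) (2 * k), n x * (T n) x) +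
      (∫ x in D (j - 1) (2 * k + 1), n x * (T n) x) = 0 := by
    rw [← split]
    have h9 : ∫ x in D j k, n x * (T n) x = ∫ x, n x * (T n) x := by
      apply setIntegral_eq_integral_of_ae_compl_eq_zero
      filter_upwards [NN_zero _ hn] with x hx hxD
      rw [hx, zero_mul]
      intro hU
      obtain ⟨⟨q, hq⟩, hx2⟩ := mem_iUnion.1 hU
      rw [mem_singleton_iff] at hq
      subst hq
      exact hxD hx2
    rw [h9, ← inner_H]
    exact inner_self_shift hT n
  linarith

section main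
variable (V : Set ℝ) (hV : MeasurableSet V) (hVf : volume V ≠ ⊤)

/-- The indicator function. -/
noncomputable def fV : H :=
  (memLp_indicator_const 2 hV (1 : ℝ) (Or.inr hVf) : MemLp (V.indicator fun _ => (1 : ℝ)) 2 volume).toLp _

lemma coe_fV : (fV V hV hVf : ℝ → ℝ) =ᵐ[volume] V.indicator fun _ => (1 : ℝ) := MemLp.coeFn_toLp _

lemma fV_nonneg : ∀ᵐ x : ℝ, 0 ≤ fV V hV hVf x := by
  filter_upwards [coe_fV V hV hVf] with x hx
  rw [hx]
  exact indicator_nonneg (fun _ _ => zero_le_one) x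

lemma fV_sq : ∀ᵐ x : ℝ, fV V hV hVf x ^ 2 = fV V hV hVf x := by
  filter_upwards [coe_fV V hV hVf] with x hx
  rw [hx]
  classical
  simp only [indicator_apply]
  split_ifs <;> norm_num

lemma integrable_fV : Integrable (fV V hV hVf : ℝ → ℝ) := by
  have h1 : Integrable (V.indicator fun _ => (1 : ℝ)) := by
    rw [integrable_indicator_iff hV]
    exact integrableOn_const hVf
  exact h1.congr (coe_fV V hV hVf).symm

lemma mI_fV_le (j k : ℤ) : mI j k (fV V hV hVf) ≤ volume.real V := by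
  unfold mI
  have h1 : ∫ x in D j k, fV V hV hVf x ≤ ∫ x, fV V hV hVf x :=
    setIntegral_le_integral (integrable_fV V hV hVf) (fV_nonneg V hV hVf)
  refine h1.trans (le_of_eq ?_)
  rw [integral_congr_ae (coe_fV V hV hVf), integral_indicator hV]
  simp

lemma mI_fV_mono {j k j' k' : ℤ} (h : D j k ⊆ D j' k') :
    mI j k (fV V hV hVf) ≤ mI j' k' (fV V hV hVf) := by
  unfold mI
  exact setIntegral_mono_set (integrable_fV V hV hVf).integrableOn
    (ae_restrict_of_ae (fV_nonneg V hV hVf)) (LE.le.eventuallyLE h)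

/-- The maximal dyadic intervals of density at least `s`. -/
def JJ (s : ℝ) : Set (ℤ × ℤ) :=
  {q | s * 2 ^ q.1 ≤ mI q.1 q.2 (fV V hV hVf) ∧
    ∀ n : ℕ, mI (q.1 + (n + 1)) (an (n + 1) q.2) (fV V hV hVf) < s * 2 ^ (q.1 + (n + 1))}

lemma JJ_disj (s : ℝ) : ∀ q ∈ JJ V hV hVf s, ∀ q' ∈ JJ V hV hVf s, q ≠ q' →
    Disjoint (D q.1 q.2) (D q'.1 q'.2) := by
  have key : ∀ q ∈ JJ V hV hVf s, ∀ q' ∈ JJ V hV hVf s, q ≠ q' → q.1 ≤ q'.1 →
      Disjoint (D q.1 q.2) (D q'.1 q'.2) := by
    rintro ⟨j, k⟩ hq ⟨j', k'⟩ hq' hne hle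
    simp only at hle ⊢
    obtain ⟨n, hn⟩ : ∃ n : ℕ, j' = j + n := ⟨(j' - j).toNat, by omega⟩
    subst hn
    rcases n with _ | n
    · rw [Nat.cast_zero, add_zero]
      apply D_disj
      rintro rfl
      apply hne
      simp
    · apply nested
      intro h
      have h1 := hq.2 n
      have h2 := hq'.1
      simp only at h1 h2
      rw [h] at h2
      push_cast at h2
      linarith
  intro q hq q' hq' hne
  rcases le_total q.1 q'.1 with h | h
  · exact key q hq q' hq' hne h
  · exact (key q' hq' q hq hne.symm h).symm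

lemma JJ_cover (s : ℝ) (hs : 0 < s) (hs1 : s < 1) : ∀ᵐ x : ℝ, x ∈ V → x ∈ UU (JJ V hV hVf s) := by
  filter_upwards [ae_lim (fV V hV hVf) (locInt _ (Lp.memLp _)), coe_fV V hV hVf] with x hx hfx hxV
  rw [hfx, indicator_of_mem hxV] at hx
  obtain ⟨n, hn⟩ := (hx.eventually (lt_mem_nhds hs1)).exists
  set k := ⌊x / 2 ^ (-(n : ℤ))⌋ with hk
  have hxD : x ∈ D (-(n : ℤ)) k := mem_D_floor.2 rfl
  -- the set of the good ancestors
  have hp : ∃ m : ℕ, s * 2 ^ (-(n : ℤ) + m) ≤ mI (-(n : ℤ) + m) (an m k) (fV V hV hVf) := by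
    refine ⟨0, ?_⟩
    rw [Nat.cast_zero, add_zero, an_zero]
    have h2 : (2 : ℝ) ^ n * 2 ^ (-(n : ℤ)) = 1 := by
      rw [zpow_neg, zpow_natCast, mul_inv_cancel₀ (by positivity)]
    have h3 : s * 2 ^ (-(n : ℤ)) ≤ 2 ^ (-(n : ℤ)) * (2 ^ n * mI (-(n : ℤ)) k (fV V hV hVf)) := by
      rw [mul_comm]
      exact mul_le_mul_of_nonneg_left hn.le (by positivity)
    calc s * 2 ^ (-(n : ℤ)) ≤ 2 ^ (-(n : ℤ)) * (2 ^ n * mI (-(n : ℤ)) k (fV V hV hVf)) := h3
      _ = (2 ^ n * 2 ^ (-(n : ℤ))) * mI (-(n : ℤ)) k (fV V hV hVf) := by ring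
      _ = _ := by rw [h2, one_mul]
  have hbd : ∃ M : ℕ, ∀ m : ℕ, s * 2 ^ (-(n : ℤ) + m) ≤ mI (-(n : ℤ) + m) (an m k) (fV V hV hVf) →
      m ≤ M := by
    obtain ⟨M, hM⟩ := exists_nat_gt (volume.real V / (s * 2 ^ (-(n : ℤ))))
    refine ⟨M, fun m hm => ?_⟩
    have h4 := hm.trans (mI_fV_le V hV hVf _ _)
    rw [zpow_add₀ (by norm_num), zpow_natCast] at h4
    rw [div_lt_iff₀ (by positivity)] at hM
    have h5 : (s * 2 ^ (-(n : ℤ))) * 2 ^ m < (s * 2 ^ (-(n : ℤ))) * M := by
      calc (s * 2 ^ (-(n : ℤ))) * 2 ^ m = s * (2 ^ (-(n : ℤ)) * 2 ^ m) := by ring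
        _ ≤ volume.real V := h4
        _ < _ := by rw [mul_comm]; exact hM
    have h6 : (2 : ℝ) ^ m < M := lt_of_mul_lt_mul_left h5 (by positivity)
    have h7 : (2 : ℕ) ^ m < M := by exact_mod_cast h6
    exact (Nat.lt_two_pow_self.trans h7).le
  obtain ⟨M, hM⟩ := hbd
  classical
  have hmax := Nat.findGreatest_spec (P := fun m : ℕ =>
    s * 2 ^ (-(n : ℤ) + m) ≤ mI (-(n : ℤ) + m) (an m k) (fV V hV hVf)) (hM _ hp.choose_spec) hp.choose_spec
  set m := Nat.findGreatest (fun m : ℕ =>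
    s * 2 ^ (-(n : ℤ) + m) ≤ mI (-(n : ℤ) + m) (an m k) (fV V hV hVf)) M with hm
  have hq : (-(n : ℤ) + m, an m k) ∈ JJ V hV hVf s := by
    refine ⟨hmax, fun i => ?_⟩
    simp only
    rw [an_add]
    by_contra hc
    rw [not_lt] at hc
    have h8 : s * 2 ^ (-(n : ℤ) + (m + (i + 1) : ℕ)) ≤
        mI (-(n : ℤ) + (m + (i + 1) : ℕ)) (an (m + (i + 1)) k) (fV V hV hVf) := by
      push_cast
      rw [show -(n : ℤ) + (m + (i + 1)) = -(n : ℤ) + m + (i + 1) by ring]
      exact hc
    have h9 := Nat.le_findGreatest (P := fun m : ℕ =>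
      s * 2 ^ (-(n : ℤ) + m) ≤ mI (-(n : ℤ) + m) (an m k) (fV V hV hVf)) (hM _ h8) h8
    rw [← hm] at h9
    omega
  exact mem_iUnion.2 ⟨⟨_, hq⟩, D_an m _ k hxD⟩

lemma two_pow_three (j : ℤ) : (2 : ℝ) ^ (j + 2) = 8 * 2 ^ (j - 1) := by
  have : j + 2 = j - 1 + (3 : ℕ) := by push_cast; ring
  rw [this, zpow_add₀ (by norm_num), zpow_natCast]
  ring

/-- The estimate on one stopping child. -/
lemma child_bound {T : H →L[ℝ] H} (hT : IsShift T) (s : ℝ) (hs : 0 < s) (j k : ℤ)
    (hq : (j, k / 2) ∈ JJ V hV hVf s) :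
    (mI (j - 1) k (T (fV V hV hVf))) ^ 2 / 2 ^ (j - 1) ≤
      2 * (∫ x in D (j - 1) k, (Vᶜ.indicator (fun x => (T (fV V hV hVf)) x ^ 2) x)) +
      128 * s ^ 2 * ∫ x in D (j - 1) k, (T (fV V hV hVf)) x ^ 2 := by
  set f := fV V hV hVf with hf
  set g := T f with hg
  have hg2 : MemLp (g : ℝ → ℝ) 2 volume := Lp.memLp g
  have hp := pow_pos' (j - 1)
  -- the splitting of the mean
  have hgi := integrableOn_D g hg2 (j - 1) k
  have hVc : MemLp (Vᶜ.indicator (g : ℝ → ℝ)) 2 volume := hg2.indicator hV.compl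
  have h1 : mI (j - 1) k g = (∫ x in D (j - 1) k, Vᶜ.indicator g x) + ∫ x in D (j - 1) k, f x * g x := by
    unfold mI
    have hfg : IntegrableOn (fun x => f x * g x) (D (j - 1) k) :=
      ((Lp.memLp f).integrable_mul (Lp.memLp g)).integrableOn
    rw [← integral_add (integrableOn_D _ hVc _ _) hfg]
    apply setIntegral_congr_ae (measurableSet_D _ _)
    filter_upwards [coe_fV V hV hVf] with x hx _
    rw [hf, hx]
    by_cases hxV : x ∈ V
    · rw [indicator_of_notMem (show x ∉ Vᶜ from not_not.2 hxV), indicator_of_mem hxV]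
      ring
    · rw [indicator_of_mem (show x ∈ Vᶜ from hxV), indicator_of_notMem hxV]
      ring
  have h2 : (∫ x in D (j - 1) k, Vᶜ.indicator g x) ^ 2 ≤
      2 ^ (j - 1) * ∫ x in D (j - 1) k, (Vᶜ.indicator (fun x => g x ^ 2) x) := by
    have := cs (D (j - 1) k) (vol_D_ne_top _ _) _ hVc
    rw [volr_D] at this
    refine this.trans (le_of_eq ?_)
    congr 1
    apply integral_congr_ae
    filter_upwards with x
    classical
    simp only [indicator_apply]
    split_ifs <;> ring
  -- the product term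
  have h3 := prod_formula hT f (j - 1) k
  rw [← hg] at h3
  have hsmall : ∀ l : ℤ, l / 2 = k → 0 ≤ mI (j - 1 - 1) l f ∧
      mI (j - 1 - 1) l f ≤ 8 * s * 2 ^ (j - 1 - 1) := by
    intro l hl
    constructor
    · exact integral_nonneg_of_ae (ae_restrict_of_ae (fV_nonneg V hV hVf))
    · have h4 := hq.2 0
      simp only at h4
      rw [zero_add, Nat.cast_zero, zero_add] at h4
      have h5 : D (j - 1 - 1) l ⊆ D (j + 1) (an 1 (k / 2)) := by
        have := D_an 3 (j - 1 - 1) l
        rw [show j - 1 - 1 + ((3 : ℕ) : ℤ) = j + 1 by push_cast; ring,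
          show an 3 l = an 1 (k / 2) by rw [← hl, ← an_succ, ← an_succ]] at this
        exact this
      refine (mI_fV_mono V hV hVf h5).trans ?_
      rw [show j + 1 = j - 1 + 2 by ring, two_pow_three] at h4
      rw [show j + 1 = j - 1 + 2 by ring]
      linarith
  have h4 : |∫ x in D (j - 1) k, f x * g x| ≤
      8 * s * (|mI (j - 1 - 1) (2 * k) g| + |mI (j - 1 - 1) (2 * k + 1) g|) := by
    rw [h3]
    have hterm : ∀ l : ℤ, l / 2 = k → |mI (j - 1 - 1) l f * mI (j - 1 - 1) l g / 2 ^ (j - 1 - 1)| ≤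
        8 * s * |mI (j - 1 - 1) l g| := by
      intro l hl
      obtain ⟨h5, h6⟩ := hsmall l hl
      have hp2 := pow_pos' (j - 1 - 1)
      rw [abs_div, abs_mul, abs_of_pos hp2, abs_of_nonneg h5, div_le_iff₀ hp2]
      calc mI (j - 1 - 1) l f * |mI (j - 1 - 1) l g| ≤
          (8 * s * 2 ^ (j - 1 - 1)) * |mI (j - 1 - 1) l g| :=
            mul_le_mul_of_nonneg_right h6 (abs_nonneg _)
        _ = _ := by ring
    refine (abs_add_le _ _).trans ?_
    rw [mul_add]
    exact add_le_add (hterm _ (half_even k)) (hterm _ (half_odd k))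
  have h5 : (∫ x in D (j - 1) k, f x * g x) ^ 2 ≤
      64 * s ^ 2 * (2 ^ (j - 1) * ∫ x in D (j - 1) k, g x ^ 2) := by
    have h6 := cs_D (j - 1 - 1) (2 * k) g
    have h7 := cs_D (j - 1 - 1) (2 * k + 1) g
    have h8 : ∫ x in D (j - 1) k, g x ^ 2 = (∫ x in D (j - 1 - 1) (2 * k), g x ^ 2) +
        ∫ x in D (j - 1 - 1) (2 * k + 1), g x ^ 2 := by
      rw [D_split (j - 1) k, setIntegral_union (D_disj (by omega)) (measurableSet_D _ _)
        hg2.integrable_sq.integrableOn hg2.integrable_sq.integrableOn]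
    have h9 := pow_eq (j - 1)
    have h10 : (|mI (j - 1 - 1) (2 * k) g| + |mI (j - 1 - 1) (2 * k + 1) g|) ^ 2 ≤
        2 ^ (j - 1) * ∫ x in D (j - 1) k, g x ^ 2 := by
      rw [h8, h9]
      have h11 := sq_abs (mI (j - 1 - 1) (2 * k) g)
      have h12 := sq_abs (mI (j - 1 - 1) (2 * k + 1) g)
      nlinarith [sq_nonneg (|mI (j - 1 - 1) (2 * k) g| - |mI (j - 1 - 1) (2 * k + 1) g|)]
    calc (∫ x in D (j - 1) k, f x * g x) ^ 2 = |∫ x in D (j - 1) k, f x * g x| ^ 2 := (sq_abs _).symm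
      _ ≤ (8 * s * (|mI (j - 1 - 1) (2 * k) g| + |mI (j - 1 - 1) (2 * k + 1) g|)) ^ 2 :=
          pow_le_pow_left₀ (abs_nonneg _) h4 2
      _ = 64 * s ^ 2 * (|mI (j - 1 - 1) (2 * k) g| + |mI (j - 1 - 1) (2 * k + 1) g|) ^ 2 := by ring
      _ ≤ _ := mul_le_mul_of_nonneg_left h10 (by positivity)
  rw [div_le_iff₀ hp, h1]
  set a := ∫ x in D (j - 1) k, Vᶜ.indicator g x
  set b := ∫ x in D (j - 1) k, f x * g x
  have h6 : (a + b) ^ 2 ≤ 2 * a ^ 2 + 2 * b ^ 2 := by nlinarith [sq_nonneg (a - b)]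
  calc (a + b) ^ 2 ≤ 2 * a ^ 2 + 2 * b ^ 2 := h6
    _ ≤ 2 * (2 ^ (j - 1) * ∫ x in D (j - 1) k, (Vᶜ.indicator (fun x => g x ^ 2) x)) +
        2 * (64 * s ^ 2 * (2 ^ (j - 1) * ∫ x in D (j - 1) k, g x ^ 2)) := by linarith
    _ = _ := by ring

/-- The main estimate. -/
theorem main_bound {T : H →L[ℝ] H} (hT : IsShift T) (s : ℝ) (hs : 0 < s) (hs1 : s < 1) :
    ∫ x in V, (T (fV V hV hVf)) x ^ 2 ≤ (1 - s / 2 + 64 * s ^ 2) * volume.real V := by
  set f := fV V hV hVf with hf
  set g := T f with hg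
  set S := JJ V hV hVf s with hS
  have hg2 : MemLp (g : ℝ → ℝ) 2 volume := Lp.memLp g
  obtain ⟨n, hn, r, hr, hfnr⟩ := exists_decomp S f
  have hTn := shift_mem hT _ hn
  have hTr := shift_mem_orth hT _ hr
  have hTf : g = T n + T r := by rw [hg, hfnr, map_add]
  have hdis := JJ_disj V hV hVf s
  have hcov := JJ_cover V hV hVf s hs hs1
  have hsq : ∀ u : H, Integrable fun x => u x ^ 2 := fun u => (Lp.memLp u).integrable_sq
  have hmU := measurableSet_UU S
  have hpair : Pairwise (Function.onFun Disjoint fun q : S => D q.1.1 q.1.2) := by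
    intro q q' hqq
    exact hdis q.1 q.2 q'.1 q'.2 (fun h => hqq (Subtype.ext h))
  -- the sets
  have hVc : Integrable (Vᶜ.indicator fun x => g x ^ 2) := (hsq g).indicator hV.compl
  -- lower bound on each interval
  have hlow : ∀ q : S, s * ∫ x in D q.1.1 q.1.2, f x ≤ ∫ x in D q.1.1 q.1.2, r x ^ 2 := by
    rintro ⟨⟨j, k⟩, hq⟩
    simp only
    have h1 : mI j k f = mI j k r := by
      rw [mI_split f (Lp.memLp f), mI_split r (Lp.memLp r)]
      have h2 : ∀ l : ℤ, l / 2 = k → mI (j - 1) l f = mI (j - 1) l r := by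
        intro l hl
        rw [hfnr, mI_add, mI_NN S hdis hn (by rw [hl]; exact hq), zero_add]
      rw [h2 _ (half_even k), h2 _ (half_odd k)]
    have h2 := cs_D j k r
    rw [← h1] at h2
    have h3 : s * 2 ^ j ≤ mI j k f := hq.1
    have h4 : 0 ≤ mI j k f := le_trans (by positivity) h3
    have h5 : 2 ^ j * (s * mI j k f) ≤ 2 ^ j * ∫ x in D j k, r x ^ 2 := by
      refine le_trans ?_ h2
      nlinarith
    exact le_of_mul_le_mul_left h5 (pow_pos' j)
  -- upper bound on each interval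
  have hup : ∀ q : S, ∫ x in D q.1.1 q.1.2, (T r) x ^ 2 ≤
      ∫ x in D q.1.1 q.1.2, (2 * Vᶜ.indicator (fun x => g x ^ 2) x + 128 * s ^ 2 * g x ^ 2) := by
    rintro ⟨⟨j, k⟩, hq⟩
    simp only
    have hchild : ∀ l : ℤ, l / 2 = k → ∫ x in D (j - 1) l, (T r) x ^ 2 ≤
        ∫ x in D (j - 1) l, (2 * Vᶜ.indicator (fun x => g x ^ 2) x + 128 * s ^ 2 * g x ^ 2) := by
      intro l hl
      have hql : (j, l / 2) ∈ S := by rw [hl]; exact hq
      have h1 := orth_const S hTr hql
      have h2 : mI (j - 1) l (T r) = mI (j - 1) l g := by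
        rw [hTf, mI_add, mI_NN S hdis hTn hql, zero_add]
      rw [h2] at h1
      have h3 : ∫ x in D (j - 1) l, (T r) x ^ 2 = (mI (j - 1) l g) ^ 2 / 2 ^ (j - 1) := by
        have h4 : ∫ x in D (j - 1) l, (T r) x ^ 2 =
            ∫ x in D (j - 1) l, (mI (j - 1) l g / 2 ^ (j - 1)) ^ 2 := by
          apply setIntegral_congr_ae (measurableSet_D _ _)
          filter_upwards [h1] with x hx hxD
          rw [hx hxD]
        rw [h4, integral_const, measureReal_restrict_apply_univ, volr_D, smul_eq_mul]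
        have := pow_pos' (j - 1)
        field_simp
      rw [h3, integral_add (hVc.integrableOn.const_mul _) ((hsq g).integrableOn.const_mul _),
        integral_const_mul, integral_const_mul]
      exact child_bound V hV hVf hT s hs j l hql
    rw [D_split j k, setIntegral_union (D_disj (by omega)) (measurableSet_D _ _)
      (hsq _).integrableOn (hsq _).integrableOn,
      setIntegral_union (D_disj (by omega)) (measurableSet_D _ _)]
    · exact add_le_add (hchild _ (half_even k)) (hchild _ (half_odd k))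
    · exact (hVc.const_mul _).integrableOn.add ((hsq g).const_mul _).integrableOn
    · exact (hVc.const_mul _).integrableOn.add ((hsq g).const_mul _).integrableOn
  -- summation
  have hfint := integrable_fV V hV hVf
  have hA : s * ∫ x in UU S, f x ≤ ∫ x in UU S, r x ^ 2 := by
    have h1 := hasSum_integral_iUnion (fun q : S => measurableSet_D q.1.1 q.1.2) hpair
      (hfint.integrableOn (s := UU S))
    have h2 := hasSum_integral_iUnion (fun q : S => measurableSet_D q.1.1 q.1.2) hpair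
      ((hsq r).integrableOn (s := UU S))
    exact hasSum_le hlow (h1.mul_left s) h2
  have hB : ∫ x in UU S, (T r) x ^ 2 ≤
      ∫ x in UU S, (2 * Vᶜ.indicator (fun x => g x ^ 2) x + 128 * s ^ 2 * g x ^ 2) := by
    have hint : Integrable (fun x => 2 * Vᶜ.indicator (fun x => g x ^ 2) x + 128 * s ^ 2 * g x ^ 2) :=
      (hVc.const_mul _).add ((hsq g).const_mul _)
    have h1 := hasSum_integral_iUnion (fun q : S => measurableSet_D q.1.1 q.1.2) hpair
      ((hsq (T r)).integrableOn (s := UU S))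
    have h2 := hasSum_integral_iUnion (fun q : S => measurableSet_D q.1.1 q.1.2) hpair
      (hint.integrableOn (s := UU S))
    exact hasSum_le hup h1 h2
  -- the measure of V
  have hfV : ∫ x, f x = volume.real V := by
    rw [integral_congr_ae (coe_fV V hV hVf), integral_indicator hV]
    simp
  have hUf : ∫ x in UU S, f x = volume.real V := by
    rw [← hfV]
    apply setIntegral_eq_integral_of_ae_compl_eq_zero
    filter_upwards [hcov, coe_fV V hV hVf] with x hx hfx hxU
    rw [hf, hfx, indicator_of_notMem (fun h => hxU (hx h))]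
  have hnormf : ∫ x, g x ^ 2 = volume.real V := by
    have h1 : ∀ u : H, ∫ x, u x ^ 2 = ‖u‖ ^ 2 := by
      intro u
      rw [← real_inner_self_eq_norm_sq, inner_H]
      apply integral_congr_ae
      filter_upwards with x
      ring
    rw [h1, hg, norm_shift hT, ← h1, ← hfV]
    exact integral_congr_ae (fV_sq V hV hVf)
  have hnormr : ∫ x, (T r) x ^ 2 = ∫ x, r x ^ 2 := by
    have h1 : ∀ u : H, ∫ x, u x ^ 2 = ‖u‖ ^ 2 := by
      intro u
      rw [← real_inner_self_eq_norm_sq, inner_H]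
      apply integral_congr_ae
      filter_upwards with x
      ring
    rw [h1, h1, norm_shift hT]
  -- outside the union
  have hout : ∫ x in (UU S)ᶜ, (T r) x ^ 2 = ∫ x in (UU S)ᶜ, Vᶜ.indicator (fun x => g x ^ 2) x := by
    apply setIntegral_congr_ae hmU.compl
    have hgx : (g : ℝ → ℝ) =ᵐ[volume] T n + T r := by
      rw [hTf]
      exact Lp.coeFn_add (T n) (T r)
    filter_upwards [NN_zero S hTn, hcov, hgx] with x h1 h2 h3 hxU
    have hxV : x ∉ V := fun h => hxU (h2 h)
    rw [indicator_of_mem (show x ∈ Vᶜ from hxV), h3, Pi.add_apply, h1 hxU, zero_add]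
  have hVcV : ∫ x, Vᶜ.indicator (fun x => g x ^ 2) x = volume.real V - ∫ x in V, g x ^ 2 := by
    rw [integral_indicator hV.compl, ← hnormf, ← integral_add_compl hV (hsq g)]
    ring
  have hnn : 0 ≤ ∫ x in (UU S)ᶜ, Vᶜ.indicator (fun x => g x ^ 2) x :=
    integral_nonneg fun x => indicator_nonneg (fun _ _ => by positivity) x
  have hnn2 : 0 ≤ ∫ x in (UU S)ᶜ, g x ^ 2 := integral_nonneg fun x => by positivity
  have h1 : s * volume.real V ≤ ∫ x, (T r) x ^ 2 := by
    rw [hnormr, ← hUf]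
    exact hA.trans (setIntegral_le_integral (hsq r) (Eventually.of_forall fun x => by
      simp only [Pi.zero_apply]
      positivity))
  rw [← integral_add_compl hmU (hsq (T r)), hout] at h1
  rw [integral_add (hVc.const_mul _).integrableOn ((hsq g).const_mul _).integrableOn,
    integral_const_mul, integral_const_mul] at hB
  have h2 := integral_add_compl hmU hVc
  have h3 := integral_add_compl hmU (hsq g)
  rw [hVcV] at h2
  rw [hnormf] at h3
  have h4 : 128 * s ^ 2 * ∫ x in UU S, g x ^ 2 ≤ 128 * s ^ 2 * volume.real V := by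
    apply mul_le_mul_of_nonneg_left _ (by positivity)
    linarith
  nlinarith [h1, hB, h2, h3, h4, hnn]

end main

end Q83.Haar
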