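import Pool.Agent.Q83.Haar.Exist

/-!
The product Haar system in the plane.
-/

set_option autoImplicit false
open MeasureTheory Set Filter Topology
open scoped ENNReal

namespace Q83.Haar

/-- The dyadic rectangles. -/
def R2 (j k i l : ℤ) : Set (ℝ × ℝ) := D j k ×ˢ D i l

lemma measurableSet_R2 (j k i l : ℤ) : MeasurableSet (R2 j k i l) :=
  (measurableSet_D _ _).prod (measurableSet_D _ _)

lemma vol_R2 (j k i l : ℤ) : volume (R2 j k i l) = ENNReal.ofReal (2 ^ j * 2 ^ i) := by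
  unfold R2
  rw [Measure.volume_eq_prod, Measure.prod_prod, vol_D, vol_D, ENNReal.ofReal_mul (pow_pos' j).le]

lemma vol_R2_ne (j k i l : ℤ) : volume (R2 j k i l) ≠ ⊤ := by
  rw [vol_R2]
  exact ENNReal.ofReal_ne_top

lemma volr_R2 (j k i l : ℤ) : volume.real (R2 j k i l) = 2 ^ j * 2 ^ i := by
  unfold Measure.real
  rw [vol_R2, ENNReal.toReal_ofReal (by positivity)]

noncomputable abbrev H2 := Lp ℝ 2 (volume : Measure (ℝ × ℝ))

lemma inner_H2 (u v : H2) : inner ℝ u v = ∫ x, u x * v x := by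
  rw [L2.inner_def]
  apply integral_congr_ae
  filter_upwards with x
  simp [mul_comm]

/-- The indicator function of a rectangle. -/
noncomputable def o2 (j k i l : ℤ) (z : ℝ × ℝ) : ℝ :=
  (D j k).indicator 1 z.1 * (D i l).indicator 1 z.2

lemma o2_eq (j k i l : ℤ) : o2 j k i l = (R2 j k i l).indicator (fun _ => (1 : ℝ)) := by
  funext z
  unfold o2 R2
  classical
  simp only [indicator_apply, Pi.one_apply, mem_prod]
  split_ifs with h1 h2 h3 h3 h2 h3 <;> simp_all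

lemma memLp_o2 (j k i l : ℤ) : MemLp (o2 j k i l) 2 volume := by
  rw [o2_eq]
  exact memLp_indicator_const 2 (measurableSet_R2 _ _ _ _) (1 : ℝ) (Or.inr (vol_R2_ne _ _ _ _))

/-- The product Haar functions. -/
noncomputable def hf2 (j k i l : ℤ) (z : ℝ × ℝ) : ℝ := hf j k z.1 * hf i l z.2

lemma hf2_eq (j k i l : ℤ) : hf2 j k i l = ((√((2 : ℝ) ^ j))⁻¹ * (√((2 : ℝ) ^ i))⁻¹) •
    (o2 (j - 1) (2 * k + 1) (i - 1) (2 * l + 1) - o2 (j - 1) (2 * k + 1) (i - 1) (2 * l) -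
      o2 (j - 1) (2 * k) (i - 1) (2 * l + 1) + o2 (j - 1) (2 * k) (i - 1) (2 * l)) := by
  funext z
  simp only [hf2, hf, o2, Pi.smul_apply, Pi.add_apply, Pi.sub_apply, smul_eq_mul]
  ring

lemma memLp_hf2 (j k i l : ℤ) : MemLp (hf2 j k i l) 2 volume := by
  rw [hf2_eq]
  exact ((((memLp_o2 _ _ _ _).sub (memLp_o2 _ _ _ _)).sub (memLp_o2 _ _ _ _)).add
    (memLp_o2 _ _ _ _)).const_smul _

/-- The classes. -/
noncomputable def hL2 (j k i l : ℤ) : H2 := (memLp_hf2 j k i l).toLp _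
noncomputable def oL2 (j k i l : ℤ) : H2 := (memLp_o2 j k i l).toLp _

lemma coe_hL2 (j k i l : ℤ) : (hL2 j k i l : ℝ × ℝ → ℝ) =ᵐ[volume] hf2 j k i l := MemLp.coeFn_toLp _
lemma coe_oL2 (j k i l : ℤ) : (oL2 j k i l : ℝ × ℝ → ℝ) =ᵐ[volume] o2 j k i l := MemLp.coeFn_toLp _

lemma integral_hf_hf (j k j' k' : ℤ) : ∫ x, hf j k x * hf j' k' x =
    if j = j' ∧ k = k' then (1 : ℝ) else 0 := by
  rw [← inner_hL_hL, inner_H]
  apply integral_congr_ae
  filter_upwards [coe_hL j k, coe_hL j' k'] with x h1 h2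
  rw [h1, h2]

lemma inner_hL2 (j k i l j' k' i' l' : ℤ) : inner ℝ (hL2 j k i l) (hL2 j' k' i' l') =
    if (j = j' ∧ k = k') ∧ (i = i' ∧ l = l') then (1 : ℝ) else 0 := by
  rw [inner_H2]
  have h1 : ∫ z, (hL2 j k i l) z * (hL2 j' k' i' l') z =
      ∫ z : ℝ × ℝ, (hf j k z.1 * hf j' k' z.1) * (hf i l z.2 * hf i' l' z.2) := by
    apply integral_congr_ae
    filter_upwards [coe_hL2 j k i l, coe_hL2 j' k' i' l'] with z h1 h2
    rw [h1, h2]
    unfold hf2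
    ring
  rw [h1, Measure.volume_eq_prod, integral_prod_mul (fun x => hf j k x * hf j' k' x)
    (fun y => hf i l y * hf i' l' y), integral_hf_hf, integral_hf_hf]
  by_cases h2 : j = j' ∧ k = k' <;> by_cases h3 : i = i' ∧ l = l' <;> simp [h2, h3]

/-- The index type. -/
abbrev Ix := (ℤ × ℤ) × (ℤ × ℤ)

noncomputable def e2 (q : Ix) : H2 := hL2 q.1.1 q.1.2 q.2.1 q.2.2

lemma orthonormal_e2 : Orthonormal ℝ e2 := by
  rw [orthonormal_iff_ite]
  rintro ⟨⟨j, k⟩, ⟨i, l⟩⟩ ⟨⟨j', k'⟩, ⟨i', l'⟩⟩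
  unfold e2
  rw [inner_hL2]
  simp only [Prod.mk.injEq]

/-- The halving principle. -/
lemma halving (a : ℤ → ℤ → ℝ) (C : ℝ) (h1 : ∀ j k, a j k = a (j - 1) (2 * k) + a (j - 1) (2 * k + 1))
    (h2 : ∀ j k, a (j - 1) (2 * k + 1) = a (j - 1) (2 * k)) (h3 : ∀ j k, |a j k| ≤ C * √((2 : ℝ) ^ j)) :
    ∀ j k, a j k = 0 := by
  have h4 : ∀ j k : ℤ, a j k = 1 / 2 * a (j + 1) (k / 2) := by
    intro j k
    have h3 := h1 (j + 1) (k / 2)
    have h4 := h2 (j + 1) (k / 2)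
    rw [show j + 1 - 1 = j by ring] at h3 h4
    rcases Int.emod_two_eq_zero_or_one k with hk | hk
    · have : 2 * (k / 2) = k := by omega
      rw [this] at h3 h4
      linarith
    · have : 2 * (k / 2) + 1 = k := by omega
      rw [this] at h3 h4
      linarith
  have h5 : ∀ (n : ℕ) (j k : ℤ), a j k = (1 / 2) ^ n * a (j + n) (an n k) := by
    intro n
    induction n with
    | zero =>
      intro j k
      simp [an_zero]
    | succ n ih =>
      intro j k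
      rw [ih, h4, ← an_succ', pow_succ]
      push_cast
      rw [add_assoc]
      ring
  intro j k
  have h6 : ∀ n : ℕ, |a j k| ≤ C * √((2 : ℝ) ^ j) * (√(1 / 2)) ^ n := by
    intro n
    rw [h5 n, abs_mul, abs_of_pos (by positivity)]
    refine (mul_le_mul_of_nonneg_left (h3 _ _) (by positivity)).trans (le_of_eq ?_)
    rw [zpow_add₀ (by norm_num), zpow_natCast, Real.sqrt_mul (by positivity)]
    have h7 : (1 / 2 : ℝ) ^ n * √((2 : ℝ) ^ n) = √(1 / 2) ^ n := by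
      have h8 : √((2 : ℝ) ^ n) = √2 ^ n := by
        rw [Real.sqrt_eq_iff_mul_self_eq (by positivity) (by positivity), ← mul_pow,
          Real.mul_self_sqrt (by norm_num)]
      rw [h8, ← mul_pow]
      congr 1
      rw [Real.sqrt_div (by norm_num), Real.sqrt_one]
      have h9 : √2 ≠ 0 := by positivity
      field_simp
      exact Real.sq_sqrt (by norm_num)
    calc (1 / 2 : ℝ) ^ n * (C * (√((2 : ℝ) ^ j) * √((2 : ℝ) ^ n))) =
        C * √((2 : ℝ) ^ j) * ((1 / 2 : ℝ) ^ n * √((2 : ℝ) ^ n)) := by ring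
      _ = _ := by rw [h7]
  have h7 : Tendsto (fun n : ℕ => C * √((2 : ℝ) ^ j) * (√(1 / 2)) ^ n) atTop (𝓝 0) := by
    have := tendsto_pow_atTop_nhds_zero_of_lt_one (r := √(1 / 2)) (by positivity) (by
      rw [Real.sqrt_lt' (by norm_num)]
      norm_num)
    simpa using this.const_mul (C * √((2 : ℝ) ^ j))
  have h8 := ge_of_tendsto' h7 h6
  exact abs_eq_zero.1 (le_antisymm h8 (abs_nonneg _))

/-- The integral over a rectangle. -/
noncomputable def m2 (j k i l : ℤ) (φ : ℝ × ℝ → ℝ) : ℝ := ∫ z in R2 j k i l, φ z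

lemma intOn2 (φ : H2) (j k i l : ℤ) : IntegrableOn φ (R2 j k i l) := by
  have : IsFiniteMeasure (volume.restrict (R2 j k i l)) :=
    ⟨by rw [Measure.restrict_apply_univ]; exact (vol_R2_ne j k i l).lt_top⟩
  have h := ((Lp.memLp φ).restrict (R2 j k i l)).mono_exponent (q := 2) (p := 1) (by norm_num)
  rwa [memLp_one_iff_integrable] at h

lemma m2_eq (φ : H2) (j k i l : ℤ) : m2 j k i l φ = inner ℝ (oL2 j k i l) φ := by
  rw [inner_H2]
  unfold m2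
  rw [← integral_indicator (measurableSet_R2 _ _ _ _)]
  apply integral_congr_ae
  filter_upwards [coe_oL2 j k i l] with z hz
  rw [hz, o2_eq]
  classical
  simp only [indicator_apply]
  split_ifs <;> ring

lemma norm_oL2 (j k i l : ℤ) : ‖oL2 j k i l‖ = √((2 : ℝ) ^ j * 2 ^ i) := by
  have h : ‖oL2 j k i l‖ ^ 2 = 2 ^ j * 2 ^ i := by
    rw [← real_inner_self_eq_norm_sq, ← m2_eq]
    unfold m2
    rw [setIntegral_congr_ae (g := fun _ => (1 : ℝ)) (measurableSet_R2 _ _ _ _)]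
    · rw [integral_const, measureReal_restrict_apply_univ, volr_R2]
      simp
    · filter_upwards [coe_oL2 j k i l] with z hz hzR
      rw [hz, o2_eq, indicator_of_mem hzR]
  rw [← h, Real.sqrt_sq (norm_nonneg _)]

lemma m2_bound (φ : H2) (j k i l : ℤ) : |m2 j k i l φ| ≤ ‖φ‖ * √((2 : ℝ) ^ i) * √((2 : ℝ) ^ j) := by
  rw [m2_eq]
  refine (abs_real_inner_le_norm _ _).trans (le_of_eq ?_)
  rw [norm_oL2, Real.sqrt_mul (pow_pos' j).le]
  ring

lemma R2_split1 (j k i l : ℤ) : R2 j k i l = R2 (j - 1) (2 * k) i l ∪ R2 (j - 1) (2 * k + 1) i l := by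
  unfold R2
  rw [D_split j k, union_prod]

lemma R2_split2 (j k i l : ℤ) : R2 j k i l = R2 j k (i - 1) (2 * l) ∪ R2 j k (i - 1) (2 * l + 1) := by
  unfold R2
  rw [D_split i l, prod_union]

lemma m2_split1 (φ : H2) (j k i l : ℤ) :
    m2 j k i l φ = m2 (j - 1) (2 * k) i l φ + m2 (j - 1) (2 * k + 1) i l φ := by
  unfold m2
  rw [R2_split1, setIntegral_union _ (measurableSet_R2 _ _ _ _) (intOn2 _ _ _ _ _)
    (intOn2 _ _ _ _ _)]
  exact Disjoint.set_prod_left (D_disj (by omega)) _ _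

lemma m2_split2 (φ : H2) (j k i l : ℤ) :
    m2 j k i l φ = m2 j k (i - 1) (2 * l) φ + m2 j k (i - 1) (2 * l + 1) φ := by
  unfold m2
  rw [R2_split2, setIntegral_union _ (measurableSet_R2 _ _ _ _) (intOn2 _ _ _ _ _)
    (intOn2 _ _ _ _ _)]
  exact Disjoint.set_prod_right (D_disj (by omega)) _ _

lemma hL2_eq (j k i l : ℤ) : hL2 j k i l = ((√((2 : ℝ) ^ j))⁻¹ * (√((2 : ℝ) ^ i))⁻¹) •
    (oL2 (j - 1) (2 * k + 1) (i - 1) (2 * l + 1) - oL2 (j - 1) (2 * k + 1) (i - 1) (2 * l) -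
      oL2 (j - 1) (2 * k) (i - 1) (2 * l + 1) + oL2 (j - 1) (2 * k) (i - 1) (2 * l)) := by
  unfold hL2 oL2
  rw [← MemLp.toLp_sub, ← MemLp.toLp_sub, ← MemLp.toLp_add, ← MemLp.toLp_const_smul]
  apply MemLp.toLp_congr
  rw [hf2_eq]

/-- Vanishing of the integrals over the squares. -/
lemma eq_zero_of_m2 (φ : H2) (h : ∀ j k i l, m2 j k i l φ = 0) : φ = 0 := by
  have hloc : LocallyIntegrable (φ : ℝ × ℝ → ℝ) volume := (Lp.memLp φ).locallyIntegrable (by norm_num)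
  rw [Lp.eq_zero_iff_ae_eq_zero]
  filter_upwards [IsUnifLocDoublingMeasure.ae_tendsto_average (μ := volume) hloc 1] with z hz
  have hδ : Tendsto (fun n : ℕ => (2 : ℝ) ^ (-(n : ℤ)) / 2) atTop (𝓝[>] 0) := by
    rw [tendsto_nhdsWithin_iff]
    constructor
    · have := (tendsto_pow_atTop_nhds_zero_of_lt_one (r := (1 / 2 : ℝ)) (by norm_num)
        (by norm_num)).div_const 2
      rw [zero_div] at this
      refine this.congr fun n => ?_
      rw [zpow_neg, zpow_natCast, one_div, inv_pow]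
    · exact Eventually.of_forall fun n => by
        simp only [mem_Ioi]
        positivity
  have hmem : ∀ (n : ℕ) (x : ℝ), x ∈ Metric.closedBall (((⌊x / 2 ^ (-(n : ℤ))⌋ : ℝ) + 1 / 2) * 2 ^ (-(n : ℤ)))
      (1 * ((2 : ℝ) ^ (-(n : ℤ)) / 2)) := by
    intro n x
    have h1 : x ∈ D (-(n : ℤ)) ⌊x / 2 ^ (-(n : ℤ))⌋ := mem_D_floor.2 rfl
    rw [mem_D] at h1
    rw [Metric.mem_closedBall, Real.dist_eq, abs_le]
    constructor <;> linarith [h1.1, h1.2]
  have h1 := hz (fun n : ℕ => (((⌊z.1 / 2 ^ (-(n : ℤ))⌋ : ℝ) + 1 / 2) * 2 ^ (-(n : ℤ)),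
    ((⌊z.2 / 2 ^ (-(n : ℤ))⌋ : ℝ) + 1 / 2) * 2 ^ (-(n : ℤ))))
    (fun n : ℕ => (2 : ℝ) ^ (-(n : ℤ)) / 2) hδ (Eventually.of_forall fun n => by
      rw [← closedBall_prod_same]
      exact ⟨hmem n z.1, hmem n z.2⟩)
  have hball : ∀ (n : ℕ) (m : ℤ), Metric.closedBall (((m : ℝ) + 1 / 2) * 2 ^ (-(n : ℤ)))
      ((2 : ℝ) ^ (-(n : ℤ)) / 2) =ᵐ[volume] D (-(n : ℤ)) m := by
    intro n m
    have h2 : Metric.closedBall (((m : ℝ) + 1 / 2) * 2 ^ (-(n : ℤ)))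
      ((2 : ℝ) ^ (-(n : ℤ)) / 2) = Icc ((m : ℝ) * 2 ^ (-(n : ℤ)))
        ((m + 1 : ℝ) * 2 ^ (-(n : ℤ))) := by
      rw [Real.closedBall_eq_Icc]
      congr 1 <;> ring
    rw [h2]
    unfold D
    exact Ico_ae_eq_Icc.symm
  have h2 : ∀ n : ℕ, ⨍ y in Metric.closedBall ((((⌊z.1 / 2 ^ (-(n : ℤ))⌋ : ℝ) + 1 / 2) * 2 ^ (-(n : ℤ)),
      ((⌊z.2 / 2 ^ (-(n : ℤ))⌋ : ℝ) + 1 / 2) * 2 ^ (-(n : ℤ))) : ℝ × ℝ) ((2 : ℝ) ^ (-(n : ℤ)) / 2), φ y = 0 := by
    intro n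
    rw [setAverage_eq, ← closedBall_prod_same]
    have h3 : (Metric.closedBall (((⌊z.1 / 2 ^ (-(n : ℤ))⌋ : ℝ) + 1 / 2) * 2 ^ (-(n : ℤ)))
        ((2 : ℝ) ^ (-(n : ℤ)) / 2) ×ˢ Metric.closedBall (((⌊z.2 / 2 ^ (-(n : ℤ))⌋ : ℝ) + 1 / 2) *
        2 ^ (-(n : ℤ))) ((2 : ℝ) ^ (-(n : ℤ)) / 2) : Set (ℝ × ℝ)) =ᵐ[volume]
        R2 (-(n : ℤ)) ⌊z.1 / 2 ^ (-(n : ℤ))⌋ (-(n : ℤ)) ⌊z.2 / 2 ^ (-(n : ℤ))⌋ :=
      Measure.set_prod_ae_eq (hball n _) (hball n _)
    rw [setIntegral_congr_set h3]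
    have h4 := h (-(n : ℤ)) ⌊z.1 / 2 ^ (-(n : ℤ))⌋ (-(n : ℤ)) ⌊z.2 / 2 ^ (-(n : ℤ))⌋
    unfold m2 at h4
    rw [h4, smul_zero]
  simp_rw [h2] at h1
  exact tendsto_nhds_unique h1 tendsto_const_nhds

/-- Completeness of the product Haar system. -/
lemma complete2 (φ : H2) (h : ∀ j k i l, inner ℝ (hL2 j k i l) φ = 0) : φ = 0 := by
  apply eq_zero_of_m2
  have h1 : ∀ j k i l : ℤ, m2 (j - 1) (2 * k + 1) (i - 1) (2 * l + 1) φ -
      m2 (j - 1) (2 * k + 1) (i - 1) (2 * l) φ - m2 (j - 1) (2 * k) (i - 1) (2 * l + 1) φ +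
      m2 (j - 1) (2 * k) (i - 1) (2 * l) φ = 0 := by
    intro j k i l
    have h2 := h j k i l
    rw [hL2_eq, inner_smul_left, inner_add_left, inner_sub_left, inner_sub_left, ← m2_eq, ← m2_eq,
      ← m2_eq, ← m2_eq, mul_eq_zero] at h2
    rcases h2 with h2 | h2
    · exfalso
      have : (√((2 : ℝ) ^ j))⁻¹ * (√((2 : ℝ) ^ i))⁻¹ ≠ 0 := by positivity
      exact this (by simpa using h2)
    · exact h2
  -- first direction
  have h2 : ∀ i l j k : ℤ, m2 j k (i - 1) (2 * l + 1) φ - m2 j k (i - 1) (2 * l) φ = 0 := by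
    intro i l
    apply halving (fun j k => m2 j k (i - 1) (2 * l + 1) φ - m2 j k (i - 1) (2 * l) φ)
      (2 * (‖φ‖ * √((2 : ℝ) ^ (i - 1))))
    · intro j k
      rw [m2_split1 φ j k, m2_split1 φ j k]
      ring
    · intro j k
      linarith [h1 j k i l]
    · intro j k
      refine (abs_sub _ _).trans ?_
      have h3 := m2_bound φ j k (i - 1) (2 * l + 1)
      have h4 := m2_bound φ j k (i - 1) (2 * l)
      linarith
  intro j k
  apply halving (fun i l => m2 j k i l φ) (‖φ‖ * √((2 : ℝ) ^ j))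
  · intro i l
    exact m2_split2 φ j k i l
  · intro i l
    linarith [h2 i l j k]
  · intro i l
    have := m2_bound φ j k i l
    linarith

end Q83.Haar
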