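import Pool.Agent.Q83.Haar.Plane

/-!
The tensor product Haar shift in the plane.
-/

set_option autoImplicit false
open MeasureTheory Set Filter Topology
open scoped ENNReal

namespace Q83.Haar

/-- The relations of the tensor product shift. -/
def IsShift2 (T : H2 →L[ℝ] H2) : Prop := ∀ j k i l : ℤ,
  T (hL2 j (2 * k + 1) i (2 * l + 1)) = hL2 j (2 * k) i (2 * l) ∧
  T (hL2 j (2 * k + 1) i (2 * l)) = -hL2 j (2 * k) i (2 * l + 1) ∧
  T (hL2 j (2 * k) i (2 * l + 1)) = -hL2 j (2 * k + 1) i (2 * l) ∧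
  T (hL2 j (2 * k) i (2 * l)) = hL2 j (2 * k + 1) i (2 * l + 1)

lemma shift2_apply {T : H2 →L[ℝ] H2} (hT : IsShift2 T) (j k i l : ℤ) :
    T (hL2 j k i l) = (ep k * ep l) • hL2 j (sb k) i (sb l) := by
  have h := hT j (k / 2) i (l / 2)
  unfold ep sb
  by_cases hk : k % 2 = 0 <;> by_cases hl : l % 2 = 0
  · rw [show 2 * (k / 2) = k by omega, show 2 * (l / 2) = l by omega] at h
    rw [if_pos hk, if_pos hl, if_pos hk, if_pos hl, h.2.2.2]
    norm_num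
  · rw [show 2 * (k / 2) = k by omega, show 2 * (l / 2) + 1 = l by omega,
      show 2 * (l / 2) = l - 1 by omega] at h
    rw [if_pos hk, if_neg hl, if_pos hk, if_neg hl, h.2.2.1]
    norm_num
  · rw [show 2 * (k / 2) + 1 = k by omega, show 2 * (l / 2) = l by omega,
      show 2 * (k / 2) = k - 1 by omega] at h
    rw [if_neg hk, if_pos hl, if_neg hk, if_pos hl, h.2.1]
    norm_num
  · rw [show 2 * (k / 2) + 1 = k by omega, show 2 * (l / 2) + 1 = l by omega,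
      show 2 * (k / 2) = k - 1 by omega, show 2 * (l / 2) = l - 1 by omega] at h
    rw [if_neg hk, if_neg hl, if_neg hk, if_neg hl, h.1]
    norm_num

lemma span_e2 : (Submodule.span ℝ (range e2)).topologicalClosure = ⊤ := by
  rw [Submodule.topologicalClosure_eq_top_iff, Submodule.eq_bot_iff]
  intro φ hφ
  apply complete2
  intro j k i l
  exact (Submodule.mem_orthogonal _ _).1 hφ _ (Submodule.subset_span ⟨((j, k), (i, l)), rfl⟩)

/-- The images. -/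
noncomputable def e2' (q : Ix) : H2 := (ep q.1.2 * ep q.2.2) • hL2 q.1.1 (sb q.1.2) q.2.1 (sb q.2.2)

lemma sb_inj {k l : ℤ} (h : sb k = sb l) : k = l := by rw [← sb_sb k, h, sb_sb]

lemma orthonormal_e2' : Orthonormal ℝ e2' := by
  rw [orthonormal_iff_ite]
  rintro ⟨⟨j, k⟩, ⟨i, l⟩⟩ ⟨⟨j', k'⟩, ⟨i', l'⟩⟩
  unfold e2'
  rw [inner_smul_left, inner_smul_right, inner_hL2]
  simp only [conj_trivial, Prod.mk.injEq]
  by_cases h : (j = j' ∧ k = k') ∧ (i = i' ∧ l = l')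
  · obtain ⟨⟨rfl, rfl⟩, rfl, rfl⟩ := h
    rw [if_pos ⟨⟨rfl, rfl⟩, rfl, rfl⟩, if_pos ⟨⟨rfl, rfl⟩, rfl, rfl⟩, mul_one]
    calc ep k * ep l * (ep k * ep l) = (ep k * ep k) * (ep l * ep l) := by ring
      _ = 1 := by rw [ep_sq, ep_sq, mul_one]
  · rw [if_neg h, if_neg]
    · ring
    · rintro ⟨⟨h1, h2⟩, h3, h4⟩
      exact h ⟨⟨h1, sb_inj h2⟩, h3, sb_inj h4⟩

lemma span_e2' : ⊤ ≤ (Submodule.span ℝ (range e2')).topologicalClosure := by
  rw [← span_e2]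
  refine Submodule.topologicalClosure_mono ?_
  rw [Submodule.span_le]
  rintro _ ⟨⟨⟨j, k⟩, ⟨i, l⟩⟩, rfl⟩
  have h : e2 ((j, k), (i, l)) = (ep k * ep l) • e2' ((j, sb k), (i, sb l)) := by
    unfold e2 e2'
    simp only
    rw [sb_sb, sb_sb, ep_sb, ep_sb, smul_smul]
    have : ep k * ep l * (-ep k * -ep l) = 1 := by
      calc ep k * ep l * (-ep k * -ep l) = (ep k * ep k) * (ep l * ep l) := by ring
        _ = 1 := by rw [ep_sq, ep_sq, mul_one]
    rw [this, one_smul]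
  rw [h]
  exact Submodule.smul_mem _ _ (Submodule.subset_span ⟨_, rfl⟩)

noncomputable def bas2 : HilbertBasis Ix ℝ H2 := HilbertBasis.mk orthonormal_e2 span_e2.ge
noncomputable def bas2' : HilbertBasis Ix ℝ H2 := HilbertBasis.mk orthonormal_e2' span_e2'

/-- The isometry. -/
noncomputable def iso2 : H2 ≃ₗᵢ[ℝ] H2 := bas2.repr.trans bas2'.repr.symm

lemma iso2_apply (j k i l : ℤ) :
    iso2 (hL2 j k i l) = (ep k * ep l) • hL2 j (sb k) i (sb l) := by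
  have h2 : hL2 j k i l = bas2 ((j, k), (i, l)) := by
    unfold bas2
    rw [HilbertBasis.coe_mk]
    rfl
  have h3 : (ep k * ep l) • hL2 j (sb k) i (sb l) = bas2' ((j, k), (i, l)) := by
    unfold bas2'
    rw [HilbertBasis.coe_mk]
    rfl
  rw [h2, h3]
  unfold iso2
  rw [LinearIsometryEquiv.trans_apply, HilbertBasis.repr_self, HilbertBasis.repr_symm_single]

lemma dense_span2 : Dense (Submodule.span ℝ (range e2) : Set H2) :=
  Submodule.dense_iff_topologicalClosure_eq_top.2 span_e2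

lemma shift2_eq {T : H2 →L[ℝ] H2} (hT : IsShift2 T) (u : H2) : T u = iso2 u := by
  have h : T = (iso2.toContinuousLinearEquiv : H2 →L[ℝ] H2) := by
    refine ContinuousLinearMap.ext_on dense_span2 ?_
    rintro _ ⟨⟨⟨j, k⟩, ⟨i, l⟩⟩, rfl⟩
    change T (hL2 j k i l) = iso2 (hL2 j k i l)
    rw [shift2_apply hT, iso2_apply]
  rw [h]
  rfl

theorem exists_shift2 : ∃ T : H2 →L[ℝ] H2, IsShift2 T := by
  refine ⟨(iso2.toContinuousLinearEquiv : H2 →L[ℝ] H2), fun j k i l => ?_⟩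
  have h1 : ∀ j k i l : ℤ, (iso2.toContinuousLinearEquiv : H2 →L[ℝ] H2) (hL2 j k i l) =
      (ep k * ep l) • hL2 j (sb k) i (sb l) := iso2_apply
  rw [h1, h1, h1, h1]
  unfold ep sb
  have e1 : (2 * k) % 2 = 0 := by omega
  have e2 : ¬ (2 * k + 1) % 2 = 0 := by omega
  have e3 : (2 * l) % 2 = 0 := by omega
  have e4 : ¬ (2 * l + 1) % 2 = 0 := by omega
  simp only [if_pos e1, if_neg e2, if_pos e3, if_neg e4, add_sub_cancel_right]
  norm_num

theorem unique_shift2 {T T' : H2 →L[ℝ] H2} (h : IsShift2 T) (h' : IsShift2 T') : T = T' := by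
  ext1 u
  rw [shift2_eq h, shift2_eq h']

lemma norm_shift2 {T : H2 →L[ℝ] H2} (hT : IsShift2 T) (u : H2) : ‖T u‖ = ‖u‖ := by
  rw [shift2_eq hT]
  exact iso2.norm_map u

/-- The pattern of a square. -/
noncomputable def PT (j a b : ℤ) : H2 := (2 : ℝ) ^ (j - 1) •
  (hL2 (j - 1) (2 * a + 1) (j - 1) (2 * b + 1) + hL2 (j - 1) (2 * a) (j - 1) (2 * b) +
    hL2 (j - 1) (2 * a + 1) (j - 1) (2 * b) - hL2 (j - 1) (2 * a) (j - 1) (2 * b + 1))

lemma shift2_PT {T : H2 →L[ℝ] H2} (hT : IsShift2 T) (j a b : ℤ) : T (PT j a b) = PT j a b := by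
  obtain ⟨h1, h2, h3, h4⟩ := hT (j - 1) a (j - 1) b
  unfold PT
  rw [map_smul, map_sub, map_add, map_add, h1, h2, h3, h4]
  congr 1
  abel

/-- The positive cells. -/
def Pp : Finset (ℤ × ℤ) := {(0, 0), (1, 1), (2, 2), (3, 3), (3, 1), (2, 0), (1, 2), (0, 3)}

lemma oL2_toLp_add {f g : ℝ × ℝ → ℝ} (hf : MemLp f 2 volume) (hg : MemLp g 2 volume) :
    hf.toLp f + hg.toLp g = (hf.add hg).toLp _ := rfl

lemma cell (j a b : ℤ) : ∑ c ∈ Pp, oL2 (j - 2) (4 * a + c.1) (j - 2) (4 * b + c.2) =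
    (1 / 2 : ℝ) • (oL2 j a j b + PT j a b) := by
  unfold Pp
  rw [Finset.sum_insert (by decide), Finset.sum_insert (by decide), Finset.sum_insert (by decide),
    Finset.sum_insert (by decide), Finset.sum_insert (by decide), Finset.sum_insert (by decide),
    Finset.sum_insert (by decide), Finset.sum_singleton]
  simp only
  unfold PT oL2 hL2
  rw [← MemLp.toLp_add, ← MemLp.toLp_add, ← MemLp.toLp_add, ← MemLp.toLp_add, ← MemLp.toLp_add,
    ← MemLp.toLp_add, ← MemLp.toLp_add, ← MemLp.toLp_add, ← MemLp.toLp_add, ← MemLp.toLp_sub,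
    ← MemLp.toLp_const_smul, ← MemLp.toLp_add, ← MemLp.toLp_const_smul]
  apply MemLp.toLp_congr
  refine Eventually.of_forall fun z => ?_
  simp only [Pi.add_apply, Pi.sub_apply, Pi.smul_apply, smul_eq_mul, o2, hf2, hf]
  have hD : ∀ (a : ℤ) (x : ℝ), (D j a).indicator (1 : ℝ → ℝ) x =
      (D (j - 2) (4 * a + 0)).indicator 1 x + (D (j - 2) (4 * a + 1)).indicator 1 x +
      (D (j - 2) (4 * a + 2)).indicator 1 x + (D (j - 2) (4 * a + 3)).indicator 1 x := by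
    have hs : ∀ (i m : ℤ) (x : ℝ), (D i m).indicator (1 : ℝ → ℝ) x =
        (D (i - 1) (2 * m)).indicator 1 x + (D (i - 1) (2 * m + 1)).indicator 1 x := by
      intro i m x
      rw [D_split i m, indicator_union_of_disjoint (D_disj (by omega))]
    intro a x
    rw [hs j a, hs (j - 1) (2 * a), hs (j - 1) (2 * a + 1)]
    rw [show j - 1 - 1 = j - 2 by ring, show 2 * (2 * a) = 4 * a + 0 by ring,
      show 2 * (2 * a + 1) = 4 * a + 2 by ring, show 4 * a + 0 + 1 = 4 * a + 1 by ring,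
      show 4 * a + 2 + 1 = 4 * a + 3 by ring]
    ring
  rw [hD a, hD b]
  have e1 : j - 1 - 1 = j - 2 := by ring
  have e2 : ∀ a : ℤ, 2 * (2 * a + 1) + 1 = 4 * a + 3 := fun a => by ring
  have e3 : ∀ a : ℤ, 2 * (2 * a + 1) = 4 * a + 2 := fun a => by ring
  have e4 : ∀ a : ℤ, 2 * (2 * a) + 1 = 4 * a + 1 := fun a => by ring
  have e5 : ∀ a : ℤ, 2 * (2 * a) = 4 * a + 0 := fun a => by ring
  rw [e1, e2, e2, e3, e3, e4, e4, e5, e5]
  have hsq : (2 : ℝ) ^ (j - 1) * ((√((2 : ℝ) ^ (j - 1)))⁻¹ * (√((2 : ℝ) ^ (j - 1)))⁻¹) = 1 := by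
    rw [← mul_inv, Real.mul_self_sqrt (pow_pos' _).le, mul_inv_cancel₀ (pow_pos' _).ne']
  set r := (√((2 : ℝ) ^ (j - 1)))⁻¹
  set X0 := (D (j - 2) (4 * a + 0)).indicator (1 : ℝ → ℝ) z.1
  set X1 := (D (j - 2) (4 * a + 1)).indicator (1 : ℝ → ℝ) z.1
  set X2 := (D (j - 2) (4 * a + 2)).indicator (1 : ℝ → ℝ) z.1
  set X3 := (D (j - 2) (4 * a + 3)).indicator (1 : ℝ → ℝ) z.1
  set Y0 := (D (j - 2) (4 * b + 0)).indicator (1 : ℝ → ℝ) z.2
  set Y1 := (D (j - 2) (4 * b + 1)).indicator (1 : ℝ → ℝ) z.2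
  set Y2 := (D (j - 2) (4 * b + 2)).indicator (1 : ℝ → ℝ) z.2
  set Y3 := (D (j - 2) (4 * b + 3)).indicator (1 : ℝ → ℝ) z.2
  have hr : (2 : ℝ) ^ (j - 1) * (r * (X3 - X2) * (r * (Y3 - Y2)) + r * (X1 - X0) * (r * (Y1 - Y0)) +
      r * (X3 - X2) * (r * (Y1 - Y0)) - r * (X1 - X0) * (r * (Y3 - Y2))) =
      ((X3 - X2) * (Y3 - Y2) + (X1 - X0) * (Y1 - Y0) + (X3 - X2) * (Y1 - Y0) -
        (X1 - X0) * (Y3 - Y2)) := by
    calc _ = ((2 : ℝ) ^ (j - 1) * (r * r)) * ((X3 - X2) * (Y3 - Y2) + (X1 - X0) * (Y1 - Y0) +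
        (X3 - X2) * (Y1 - Y0) - (X1 - X0) * (Y3 - Y2)) := by ring
      _ = _ := by rw [hsq, one_mul]
  rw [hr]
  ring

/-- The sets of squares. -/
def Sq : ℕ → Finset (ℤ × ℤ)
  | 0 => {(0, 0)}
  | n + 1 => (Sq n ×ˢ Pp).image fun q => (4 * q.1.1 + q.2.1, 4 * q.1.2 + q.2.2)

lemma Pp_bound : ∀ c ∈ Pp, 0 ≤ c.1 ∧ c.1 < 4 ∧ 0 ≤ c.2 ∧ c.2 < 4 := by decide

lemma Sq_inj (n : ℕ) : Set.InjOn (fun q : (ℤ × ℤ) × (ℤ × ℤ) => (4 * q.1.1 + q.2.1, 4 * q.1.2 + q.2.2))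
    (Sq n ×ˢ Pp : Finset _) := by
  rintro ⟨⟨a, b⟩, ⟨c, d⟩⟩ h ⟨⟨a', b'⟩, ⟨c', d'⟩⟩ h' he
  rw [Finset.mem_coe, Finset.mem_product] at h h'
  have h1 := Pp_bound _ h.2
  have h2 := Pp_bound _ h'.2
  simp only [Prod.mk.injEq] at he h1 h2 ⊢
  omega

lemma card_Sq (n : ℕ) : (Sq n).card = 8 ^ n := by
  induction n with
  | zero => rfl
  | succ n ih =>
    rw [Sq, Finset.card_image_of_injOn (Sq_inj n), Finset.card_product, ih, pow_succ]
    rfl

/-- The functions. -/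
noncomputable def Fn (n : ℕ) : H2 := ∑ q ∈ Sq n, oL2 (-(2 * n : ℤ)) q.1 (-(2 * n : ℤ)) q.2

lemma Fn_succ (n : ℕ) : Fn (n + 1) = (1 / 2 : ℝ) • (Fn n + ∑ q ∈ Sq n, PT (-(2 * n : ℤ)) q.1 q.2) := by
  unfold Fn
  rw [Sq, Finset.sum_image (Sq_inj n), Finset.sum_product, ← Finset.sum_add_distrib, Finset.smul_sum]
  refine Finset.sum_congr rfl fun q _ => ?_
  rw [← cell]
  refine Finset.sum_congr rfl fun c _ => ?_
  congr 1 <;> push_cast <;> ring

lemma shift2_Fn {T : H2 →L[ℝ] H2} (hT : IsShift2 T) (n : ℕ) :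
    T (Fn n) - Fn n = ((1 / 2 : ℝ) ^ n) • (T (Fn 0) - Fn 0) := by
  induction n with
  | zero => simp
  | succ n ih =>
    have h1 : T (∑ q ∈ Sq n, PT (-(2 * n : ℤ)) q.1 q.2) = ∑ q ∈ Sq n, PT (-(2 * n : ℤ)) q.1 q.2 := by
      rw [map_sum]
      exact Finset.sum_congr rfl fun q _ => shift2_PT hT _ _ _
    rw [Fn_succ, map_smul, map_add, h1, ← smul_sub, add_sub_add_right_eq_sub, ih, smul_smul,
      pow_succ]
    congr 1
    ring

/-- The sets. -/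
def Un (n : ℕ) : Set (ℝ × ℝ) := ⋃ q ∈ Sq n, R2 (-(2 * n : ℤ)) q.1 (-(2 * n : ℤ)) q.2

lemma measurableSet_Un (n : ℕ) : MeasurableSet (Un n) :=
  Finset.measurableSet_biUnion _ fun _ _ => measurableSet_R2 _ _ _ _

lemma Un_disj (n : ℕ) : ∀ q ∈ Sq n, ∀ q' ∈ Sq n, q ≠ q' →
    Disjoint (R2 (-(2 * n : ℤ)) q.1 (-(2 * n : ℤ)) q.2) (R2 (-(2 * n : ℤ)) q'.1 (-(2 * n : ℤ)) q'.2) := by
  intro q _ q' _ h
  unfold R2
  by_cases h1 : q.1 = q'.1
  · have h2 : q.2 ≠ q'.2 := fun h2 => h (Prod.ext h1 h2)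
    exact Disjoint.set_prod_right (D_disj h2) _ _
  · exact Disjoint.set_prod_left (D_disj h1) _ _

lemma coe_Fn (n : ℕ) : (Fn n : ℝ × ℝ → ℝ) =ᵐ[volume] (Un n).indicator fun _ => (1 : ℝ) := by
  have h1 : ∀ s : Finset (ℤ × ℤ), ((∑ q ∈ s, oL2 (-(2 * n : ℤ)) q.1 (-(2 * n : ℤ)) q.2 : H2) : ℝ × ℝ → ℝ)
      =ᵐ[volume] fun z => ∑ q ∈ s, o2 (-(2 * n : ℤ)) q.1 (-(2 * n : ℤ)) q.2 z := by
    intro s
    induction s using Finset.induction_on with
    | empty =>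
      simp only [Finset.sum_empty]
      exact Lp.coeFn_zero ℝ 2 (volume : Measure (ℝ × ℝ))
    | insert q s hq ih =>
      rw [Finset.sum_insert hq]
      filter_upwards [Lp.coeFn_add (oL2 (-(2 * n : ℤ)) q.1 (-(2 * n : ℤ)) q.2)
        (∑ q ∈ s, oL2 (-(2 * n : ℤ)) q.1 (-(2 * n : ℤ)) q.2), ih,
        coe_oL2 (-(2 * n : ℤ)) q.1 (-(2 * n : ℤ)) q.2] with z e1 e2 e3
      rw [e1, Pi.add_apply, e2, e3, Finset.sum_insert hq]
  refine (h1 (Sq n)).trans (Eventually.of_forall fun z => ?_)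
  simp only
  unfold Un
  rw [Finset.indicator_biUnion _ _ (Un_disj n)]
  exact Finset.sum_congr rfl fun q _ => by rw [o2_eq]

lemma vol_Un (n : ℕ) : volume (Un n) = ENNReal.ofReal ((1 / 2) ^ n) := by
  unfold Un
  rw [measure_biUnion_finset (fun q hq q' hq' h => Un_disj n q hq q' hq' h)
    (fun _ _ => measurableSet_R2 _ _ _ _)]
  simp_rw [vol_R2]
  rw [Finset.sum_const, card_Sq, ← ENNReal.ofReal_nsmul]
  congr 1
  rw [nsmul_eq_mul]
  push_cast
  have h1 : (2 : ℝ) ^ (-(2 * n : ℤ)) = (1 / 4) ^ n := by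
    rw [zpow_neg, zpow_mul, zpow_natCast, one_div, inv_pow]
    norm_num
  rw [h1, ← mul_pow, ← mul_pow]
  norm_num

/-- The small loss. -/
theorem loss {T : H2 →L[ℝ] H2} (hT : IsShift2 T) (n : ℕ) :
    (1 / 2) ^ n - 4 * (1 / 4) ^ n ≤ ∫ z in Un n, (T (Fn n)) z ^ 2 := by
  have hsq : ∀ u : H2, Integrable fun z => u z ^ 2 := fun u => (Lp.memLp u).integrable_sq
  have hn2 : ∀ u : H2, ∫ z, u z ^ 2 = ‖u‖ ^ 2 := by
    intro u
    rw [← real_inner_self_eq_norm_sq, inner_H2]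
    apply integral_congr_ae
    filter_upwards with x
    ring
  have hU := measurableSet_Un n
  have hF : ‖Fn n‖ ^ 2 = (1 / 2) ^ n := by
    rw [← hn2]
    have h1 : ∫ z, (Fn n) z ^ 2 = ∫ z, (Un n).indicator (fun _ => (1 : ℝ)) z := by
      apply integral_congr_ae
      filter_upwards [coe_Fn n] with z hz
      rw [hz]
      classical
      simp only [indicator_apply]
      split_ifs <;> norm_num
    rw [h1, integral_indicator hU, integral_const, measureReal_restrict_apply_univ]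
    unfold Measure.real
    rw [vol_Un, ENNReal.toReal_ofReal (by positivity)]
    simp
  set w := T (Fn n) - Fn n with hw
  have hwn : ‖w‖ ^ 2 ≤ 4 * (1 / 4) ^ n := by
    have h0 : ‖Fn 0‖ ^ 2 = 1 := by
      have h1 : Fn 0 = oL2 0 0 0 0 := by
        unfold Fn Sq
        simp
      rw [h1, norm_oL2]
      simp
    have h1 : ‖Fn 0‖ = 1 := by
      have := norm_nonneg (Fn 0)
      nlinarith
    have h2 : ‖w‖ ≤ (1 / 2) ^ n * 2 := by
      rw [hw, shift2_Fn hT, norm_smul, Real.norm_of_nonneg (by positivity)]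
      apply mul_le_mul_of_nonneg_left _ (by positivity)
      refine (norm_sub_le _ _).trans ?_
      rw [norm_shift2 hT, h1]
      norm_num
    calc ‖w‖ ^ 2 ≤ ((1 / 2) ^ n * 2) ^ 2 := pow_le_pow_left₀ (norm_nonneg _) h2 2
      _ = 4 * (1 / 4) ^ n := by
        rw [mul_pow, ← pow_mul, mul_comm n 2, pow_mul]
        norm_num
        ring
  have h1 : ∫ z in (Un n)ᶜ, (T (Fn n)) z ^ 2 ≤ ‖w‖ ^ 2 := by
    rw [← hn2]
    have h2 : ∫ z in (Un n)ᶜ, (T (Fn n)) z ^ 2 = ∫ z in (Un n)ᶜ, w z ^ 2 := by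
      apply setIntegral_congr_ae hU.compl
      filter_upwards [Lp.coeFn_sub (T (Fn n)) (Fn n), coe_Fn n] with z e1 e2 hz
      rw [hw, e1, Pi.sub_apply, e2, indicator_of_notMem hz, sub_zero]
    rw [h2]
    exact setIntegral_le_integral (hsq w) (Eventually.of_forall fun z => by
      simp only [Pi.zero_apply]
      positivity)
  have h2 := integral_add_compl hU (hsq (T (Fn n)))
  rw [hn2, norm_shift2 hT, hF] at h2
  linarith

end Q83.Haar
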