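import Pool.Agent.Q83.Haar.Base

/-!
The Haar shift and the invariant subspaces attached to families of disjoint dyadic intervals.
-/

set_option autoImplicit false
open MeasureTheory Set Filter Topology
open scoped ENNReal

namespace Q83.Haar

lemma dense_span : Dense (Submodule.span ℝ (range fun q : ℤ × ℤ => hL q.1 q.2) : Set H) := by
  rw [← Submodule.dense_iff_topologicalClosure_eq_top.symm.eq]
  · rw [Submodule.topologicalClosure_eq_top_iff, Submodule.eq_bot_iff]
    intro φ hφ
    apply complete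
    intro j k
    exact (Submodule.mem_orthogonal _ _).1 hφ _ (Submodule.subset_span ⟨(j, k), rfl⟩)

lemma ext_basis {G : Type*} [NormedAddCommGroup G] [NormedSpace ℝ G] (A B : H →L[ℝ] G)
    (h : ∀ j k, A (hL j k) = B (hL j k)) : A = B :=
  ContinuousLinearMap.ext_on dense_span (by
    rintro _ ⟨q, rfl⟩
    exact h q.1 q.2)

/-- The sibling. -/
def sb (k : ℤ) : ℤ := if k % 2 = 0 then k + 1 else k - 1

/-- The sign. -/
def ep (k : ℤ) : ℝ := if k % 2 = 0 then -1 else 1

lemma sb_sb (k : ℤ) : sb (sb k) = k := by unfold sb; split_ifs <;> omega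

lemma ep_sb (k : ℤ) : ep (sb k) = -ep k := by
  unfold ep sb
  split_ifs with h1 h2 h2
  · omega
  · norm_num
  · norm_num
  · omega

lemma ep_sq (k : ℤ) : ep k * ep k = 1 := by unfold ep; split_ifs <;> norm_num

lemma sb_half (k : ℤ) : sb k / 2 = k / 2 := by unfold sb; split_ifs <;> omega

/-- The defining relations of the Haar shift. -/
def IsShift (T : H →L[ℝ] H) : Prop :=
  ∀ j k : ℤ, T (hL j (2 * k + 1)) = hL j (2 * k) ∧ T (hL j (2 * k)) = -hL j (2 * k + 1)

lemma shift_apply {T : H →L[ℝ] H} (hT : IsShift T) (j k : ℤ) : T (hL j k) = ep k • hL j (sb k) := by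
  unfold ep sb
  split_ifs with h
  · have := (hT j (k / 2)).2
    rw [show 2 * (k / 2) = k by omega] at this
    rw [this, neg_smul, one_smul]
  · have := (hT j (k / 2)).1
    rw [show 2 * (k / 2) + 1 = k by omega, show 2 * (k / 2) = k - 1 by omega] at this
    rw [this, one_smul]

lemma inner_hL_hL (j k j' k' : ℤ) :
    inner ℝ (hL j k) (hL j' k') = if j = j' ∧ k = k' then (1 : ℝ) else 0 := by
  have := orthonormal_iff_ite.1 orthonormal_hL (j, k) (j', k')
  simpa [Prod.mk.injEq] using this

lemma skew {T : H →L[ℝ] H} (hT : IsShift T) : ContinuousLinearMap.adjoint T = -T := by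
  apply ext_basis
  intro j' k'
  rw [← sub_eq_zero]
  apply complete
  intro j k
  rw [inner_sub_right, ContinuousLinearMap.adjoint_inner_right, neg_apply,
    inner_neg_right, shift_apply hT, shift_apply hT, inner_smul_left, inner_smul_right, inner_hL_hL,
    inner_hL_hL]
  simp only [conj_trivial]
  by_cases h : j = j' ∧ sb k = k'
  · obtain ⟨rfl, rfl⟩ := h
    rw [if_pos ⟨rfl, rfl⟩, sb_sb, if_pos ⟨rfl, rfl⟩, ep_sb]
    ring
  · rw [if_neg h, if_neg]
    · ring
    · rintro ⟨rfl, h2⟩
      apply h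
      rw [h2, sb_sb]
      exact ⟨rfl, rfl⟩

lemma inner_shift {T : H →L[ℝ] H} (hT : IsShift T) (u v : H) : inner ℝ (T u) v = -inner ℝ u (T v) := by
  rw [← ContinuousLinearMap.adjoint_inner_right, skew hT, neg_apply,
    inner_neg_right]

lemma shift_shift {T : H →L[ℝ] H} (hT : IsShift T) (u : H) : T (T u) = -u := by
  have h : T.comp T = -ContinuousLinearMap.id ℝ H := by
    apply ext_basis
    intro j k
    rw [ContinuousLinearMap.comp_apply, shift_apply hT, map_smul, shift_apply hT, sb_sb, smul_smul,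
      ep_sb, mul_neg, ep_sq]
    simp
  have := congrArg (fun A : H →L[ℝ] H => A u) h
  simpa using this

lemma inner_self_shift {T : H →L[ℝ] H} (hT : IsShift T) (u : H) : inner ℝ u (T u) = 0 := by
  have := inner_shift hT u u
  rw [real_inner_comm] at this
  linarith

lemma norm_shift {T : H →L[ℝ] H} (hT : IsShift T) (u : H) : ‖T u‖ = ‖u‖ := by
  have h : ‖T u‖ ^ 2 = ‖u‖ ^ 2 := by
    rw [← real_inner_self_eq_norm_sq, ← real_inner_self_eq_norm_sq, inner_shift hT, shift_shift hT,
      inner_neg_right, neg_neg]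
  exact (sq_eq_sq₀ (norm_nonneg _) (norm_nonneg _)).1 h

/-- The strict descendants of the members of a family. -/
def Nd (S : Set (ℤ × ℤ)) : Set (ℤ × ℤ) := {q | ∃ n : ℕ, (q.1 + (n + 1), an (n + 1) q.2) ∈ S}

lemma Nd_sb (S : Set (ℤ × ℤ)) {j k : ℤ} (h : (j, k) ∈ Nd S) : (j, sb k) ∈ Nd S := by
  obtain ⟨n, hn⟩ := h
  refine ⟨n, ?_⟩
  simp only at hn ⊢
  rw [an_succ] at hn ⊢
  rwa [sb_half]

/-- The closed span. -/
noncomputable def NN (S : Set (ℤ × ℤ)) : Submodule ℝ H :=
  (Submodule.span ℝ ((fun q : ℤ × ℤ => hL q.1 q.2) '' Nd S)).topologicalClosure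

lemma hL_mem_NN (S : Set (ℤ × ℤ)) {q : ℤ × ℤ} (h : q ∈ Nd S) : hL q.1 q.2 ∈ NN S :=
  Submodule.le_topologicalClosure _ (Submodule.subset_span ⟨q, h, rfl⟩)

lemma NN_le (S : Set (ℤ × ℤ)) (M : Submodule ℝ H) (hM : IsClosed (M : Set H))
    (h : ∀ q ∈ Nd S, hL q.1 q.2 ∈ M) : NN S ≤ M := by
  apply Submodule.topologicalClosure_minimal _ _ hM
  rw [Submodule.span_le]
  rintro _ ⟨q, hq, rfl⟩
  exact h q hq

instance (S : Set (ℤ × ℤ)) : CompleteSpace (NN S) :=
  (Submodule.isClosed_topologicalClosure _).completeSpace_coe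

lemma shift_mem {T : H →L[ℝ] H} (hT : IsShift T) (S : Set (ℤ × ℤ)) {u : H} (hu : u ∈ NN S) :
    T u ∈ NN S := by
  have h : NN S ≤ (NN S).comap (T : H →ₗ[ℝ] H) := by
    apply NN_le
    · exact (Submodule.isClosed_topologicalClosure _).preimage T.continuous
    · intro q hq
      rw [Submodule.mem_comap]
      change T (hL q.1 q.2) ∈ NN S
      rw [shift_apply hT]
      exact Submodule.smul_mem _ _ (hL_mem_NN S (Nd_sb S hq))
  exact h hu

lemma shift_mem_orth {T : H →L[ℝ] H} (hT : IsShift T) (S : Set (ℤ × ℤ)) {u : H} (hu : u ∈ (NN S)ᗮ) :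
    T u ∈ (NN S)ᗮ := by
  rw [Submodule.mem_orthogonal] at hu ⊢
  intro v hv
  have := inner_shift hT v u
  rw [hu _ (shift_mem hT S hv)] at this
  linarith

/-- The decomposition. -/
lemma exists_decomp (S : Set (ℤ × ℤ)) (u : H) : ∃ n ∈ NN S, ∃ r ∈ (NN S)ᗮ, u = n + r := by
  obtain ⟨n, hn, r, hr, h⟩ := (NN S).exists_add_mem_mem_orthogonal u
  exact ⟨n, hn, r, hr, h⟩

/-- The indicator of a dyadic interval as an element of the Hilbert space. -/
noncomputable def oneL (j k : ℤ) : H := (memLp_indD j k).toLp _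

lemma inner_oneL (j k : ℤ) (φ : H) : inner ℝ (oneL j k) φ = mI j k φ := by
  rw [inner_H]
  unfold mI oneL
  rw [← integral_indicator (measurableSet_D j k)]
  apply integral_congr_ae
  filter_upwards [(memLp_indD j k).coeFn_toLp] with x hx
  rw [hx]
  classical
  simp only [indicator_apply, Pi.one_apply]
  split_ifs <;> ring

section family
variable (S : Set (ℤ × ℤ)) (hS : ∀ q ∈ S, ∀ q' ∈ S, q ≠ q' → Disjoint (D q.1 q.2) (D q'.1 q'.2))

lemma D_child (j k : ℤ) : D (j - 1) k ⊆ D j (k / 2) := by
  have := D_parent (j - 1) k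
  rwa [show j - 1 + 1 = j by ring] at this

lemma hf_support (j k : ℤ) {x : ℝ} (hx : x ∉ D j k) : hf j k x = 0 := by
  unfold hf
  rw [D_split j k, mem_union, not_or] at hx
  rw [indicator_of_notMem hx.2, indicator_of_notMem hx.1]
  ring

include hS in
lemma mI_NN {n : H} (hn : n ∈ NN S) {j k : ℤ} (hjk : (j, k / 2) ∈ S) : mI (j - 1) k n = 0 := by
  have h : NN S ≤ (ℝ ∙ oneL (j - 1) k)ᗮ := by
    apply NN_le
    · exact Submodule.isClosed_orthogonal _
    · rintro ⟨i, l⟩ hq
      simp only
      rw [Submodule.mem_orthogonal_singleton_iff_inner_right, inner_oneL, mI_congr _ _ (coe_hL i l)]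
      obtain ⟨m, hm⟩ := hq
      simp only at hm
      by_cases he : (i + (m + 1), an (m + 1) l) = (j, k / 2)
      · rw [Prod.mk.injEq] at he
        have : j - 1 = i + m := by omega
        rw [this]
        exact mI_hf m i l k
      · have hd := hS _ hm _ hjk he
        simp only at hd
        unfold mI
        apply setIntegral_eq_zero_of_forall_eq_zero
        intro x hx
        apply hf_support
        intro hx2
        have h1 := D_an (m + 1) i l hx2
        push_cast at h1
        exact Set.disjoint_left.1 hd h1 (D_child j k hx)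
  have := h hn
  rwa [Submodule.mem_orthogonal_singleton_iff_inner_right, inner_oneL] at this

/-- The union of the family. -/
def UU : Set ℝ := ⋃ q : S, D q.1.1 q.1.2

lemma measurableSet_UU : MeasurableSet (UU S) := MeasurableSet.iUnion fun _ => measurableSet_D _ _

lemma NN_zero {n : H} (hn : n ∈ NN S) : ∀ᵐ x : ℝ, x ∉ UU S → n x = 0 := by
  have hn2 := Lp.memLp n
  have hw : MemLp ((UU S)ᶜ.indicator n) 2 volume := hn2.indicator (measurableSet_UU S).compl
  set w : H := hw.toLp _ with hwdef
  have hwx : (w : ℝ → ℝ) =ᵐ[volume] (UU S)ᶜ.indicator n := hw.coeFn_toLp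
  have h1 : NN S ≤ (ℝ ∙ w)ᗮ := by
    apply NN_le
    · exact Submodule.isClosed_orthogonal _
    · rintro ⟨i, l⟩ hq
      simp only
      rw [Submodule.mem_orthogonal_singleton_iff_inner_right, inner_H]
      apply integral_eq_zero_of_ae
      filter_upwards [hwx, coe_hL i l] with x h1 h2
      rw [h1, h2]
      obtain ⟨m, hm⟩ := hq
      simp only at hm
      by_cases hx : x ∈ UU S
      · rw [indicator_of_notMem (show x ∉ (UU S)ᶜ from not_not.2 hx)]
        simp
      · rw [hf_support]
        · simp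
        · intro hx2
          apply hx
          have h3 := D_an (m + 1) i l hx2
          push_cast at h3
          exact mem_iUnion.2 ⟨⟨_, hm⟩, h3⟩
  have h2 := h1 hn
  rw [Submodule.mem_orthogonal_singleton_iff_inner_right, inner_H] at h2
  have h3 : ∫ x, w x * n x = ∫ x, ((UU S)ᶜ.indicator n x) ^ 2 := by
    apply integral_congr_ae
    filter_upwards [hwx] with x h1
    rw [h1]
    classical
    simp only [indicator_apply]
    split_ifs <;> ring
  rw [h3, integral_eq_zero_iff_of_nonneg (fun x => by positivity)] at h2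
  · filter_upwards [h2] with x hx hxU
    simp only [Pi.zero_apply] at hx
    rw [indicator_of_mem (show x ∈ (UU S)ᶜ from hxU)] at hx
    exact pow_eq_zero_iff (n := 2) (by norm_num) |>.1 hx
  · exact hw.integrable_sq

lemma orth_const {r : H} (hr : r ∈ (NN S)ᗮ) {j k : ℤ} (hjk : (j, k / 2) ∈ S) :
    ∀ᵐ x : ℝ, x ∈ D (j - 1) k → r x = mI (j - 1) k r / 2 ^ (j - 1) := by
  have hr2 := Lp.memLp r
  set c := mI (j - 1) k r / 2 ^ (j - 1) with hc
  rw [Submodule.mem_orthogonal] at hr
  -- all the descendants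
  have key : ∀ (n : ℕ) (l : ℤ), an n l = k → mI (j - 1 - n) l r = c * 2 ^ (j - 1 - n) := by
    intro n
    induction n with
    | zero =>
      intro l hl
      rw [an_zero] at hl
      rw [hl, Nat.cast_zero, sub_zero, hc, div_mul_cancel₀ _ (pow_pos' _).ne']
    | succ n ih =>
      intro l hl
      rw [an_succ] at hl
      have h1 := ih (l / 2) hl
      have h2 : (j - 1 - (n : ℤ), l / 2) ∈ Nd S := by
        refine ⟨n, ?_⟩
        simp only
        rw [an_succ', hl, show j - 1 - (n : ℤ) + (n + 1) = j by ring]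
        exact hjk
      have h3 := hr _ (hL_mem_NN S h2)
      simp only at h3
      rw [inner_hL, mul_eq_zero] at h3
      have h4 : mI (j - 1 - n - 1) (2 * (l / 2) + 1) r = mI (j - 1 - n - 1) (2 * (l / 2)) r := by
        rcases h3 with h3 | h3
        · exfalso
          rw [inv_eq_zero] at h3
          exact (Real.sqrt_pos.2 (pow_pos' _)).ne' h3
        · linarith
      have h5 := mI_split r hr2 (j - 1 - n) (l / 2)
      have h6 := pow_eq (j - 1 - n)
      have h7 : j - 1 - ((n + 1 : ℕ) : ℤ) = j - 1 - n - 1 := by push_cast; ring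
      rw [h7]
      rw [h1, h6] at h5
      rcases Int.emod_two_eq_zero_or_one l with hl2 | hl2
      · have : 2 * (l / 2) = l := by omega
        rw [this] at h4 h5
        linarith
      · have : 2 * (l / 2) + 1 = l := by omega
        rw [this] at h4 h5
        linarith
  set φ : ℝ → ℝ := fun x => (D (j - 1) k).indicator (fun x => r x - c) x with hφ
  have hφ2 : MemLp φ 2 volume := by
    have h1 : φ = (D (j - 1) k).indicator r - c • (D (j - 1) k).indicator (1 : ℝ → ℝ) := by
      funext x
      simp only [hφ, Pi.sub_apply, Pi.smul_apply, smul_eq_mul]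
      classical
      simp only [indicator_apply, Pi.one_apply]
      split_ifs <;> ring
    rw [h1]
    exact (hr2.indicator (measurableSet_D _ _)).sub ((memLp_indD _ _).const_smul c)
  have hz : ∀ i l : ℤ, mI i l φ = 0 := by
    intro i l
    unfold mI
    rw [hφ]
    simp only
    rw [setIntegral_indicator (measurableSet_D _ _)]
    rcases le_or_gt i (j - 1) with hi | hi
    · obtain ⟨n, hn⟩ : ∃ n : ℕ, j - 1 = i + n := ⟨(j - 1 - i).toNat, by omega⟩
      rw [hn, D_inter n i l k]
      split_ifs with hk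
      · have h1 := key n l hk.symm
        rw [show j - 1 - (n : ℤ) = i by omega] at h1
        rw [integral_sub (integrableOn_D r hr2 _ _) (integrableOn_const (vol_D_ne_top _ _))]
        unfold mI at h1
        rw [h1]
        simp [volr_D]
        ring
      · simp
    · obtain ⟨n, hn⟩ : ∃ n : ℕ, i = j - 1 + n := ⟨(i - (j - 1)).toNat, by omega⟩
      rw [Set.inter_comm, hn, D_inter n (j - 1) k l]
      split_ifs with hk
      · rw [integral_sub (integrableOn_D r hr2 _ _) (integrableOn_const (vol_D_ne_top _ _))]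
        have h1 : ∫ x in D (j - 1) k, r x = c * 2 ^ (j - 1) := by
          rw [hc, div_mul_cancel₀ _ (pow_pos' _).ne']
          rfl
        rw [h1]
        simp [volr_D]
        ring
      · simp
  filter_upwards [eq_zero_of_mI φ (locInt φ hφ2) hz] with x hx hxD
  rw [hφ] at hx
  simp only at hx
  rw [indicator_of_mem hxD] at hx
  simp only [Pi.zero_apply] at hx
  linarith

end family

end Q83.Haar
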